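import Pool.Agent.T6.H34.TW.Lift
import Pool.Agent.Y483.Main
import Pool.Agent.Y483.Cplx

/-!
The homology of a homomorphism over a group `Γ`: the criterion for injectivity.
-/

set_option autoImplicit false

namespace Pool.Agent.T6.H34.TW

open Finsupp Pool.Agent.Y483

section

variable {G G' Γ : Type} [Group G] [Group G'] [Group Γ]

/-- The representation on `ℚ[Γ]` through a homomorphism to `Γ`. -/
noncomputable abbrev repP (p : G →* Γ) : Representation ℚ G (Γ →₀ ℚ) :=
  permRep ((MulAction.toPermHom Γ Γ).comp p)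

theorem repP_single (p : G →* Γ) (g : G) (v : Γ) (r : ℚ) :
    repP p g (single v r) = single (p g * v) r := by
  rw [repP, permRep_single]
  rfl

theorem dd_rB' (p : G →* Γ) (q : ℕ) (g : Γ) (z : Bq Γ G (q + 1)) :
    dd (repP p) q (rB Γ G (q + 1) g z) = rB Γ G q g (dd (repP p) q z) := by
  apply dd_mp (ρ := repP p) (τ := repP p) (MonoidHom.id G) (rightR g)
  intro h m
  have e : (rightR g) ∘ₗ (repP p h) = (repP p h) ∘ₗ (rightR g) := by
    apply lhom_ext
    intro v r
    rw [LinearMap.comp_apply, LinearMap.comp_apply, repP_single, rightR_single, rightR_single,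
      repP_single, mul_assoc]
  exact DFunLike.congr_fun e m

theorem dd_sum (p : G →* Γ) (q : ℕ) (z : Bq Γ G (q + 1)) :
    dd (tQ G) q (mp (q + 1) id (sumC Γ) z) = mp q id (sumC Γ) (dd (repP p) q z) := by
  apply dd_mp (ρ := repP p) (τ := tQ G) (MonoidHom.id G) (sumC Γ)
  intro g m
  rw [tQ_apply, LinearMap.id_apply]
  exact sumC_permRep _ g m

/-- The map of the complexes. -/
noncomputable def FF (Γ : Type) (f : G →* G') (q : ℕ) : Bq Γ G q →ₗ[ℚ] Bq Γ G' q :=
  mp q f LinearMap.id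

omit [Group Γ] in
theorem FF_single (f : G →* G') (q : ℕ) (x : Fin q → G) (m : Γ →₀ ℚ) :
    FF Γ f q (single x m) = single (f ∘ x) m := by
  unfold FF
  rw [mp_single]
  rfl

theorem dd_FF (p : G →* Γ) (p' : G' →* Γ) (f : G →* G') (hp : ∀ g, p' (f g) = p g) (q : ℕ)
    (z : Bq Γ G (q + 1)) :
    dd (repP p') q (FF Γ f (q + 1) z) = FF Γ f q (dd (repP p) q z) := by
  apply dd_mp (ρ := repP p) (τ := repP p') f LinearMap.id
  intro g m
  rw [LinearMap.id_apply, LinearMap.id_apply]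
  have e : repP p g = repP p' (f g) := by
    apply lhom_ext
    intro v r
    rw [repP_single, repP_single, hp]
  rw [e]

theorem FF_rB (f : G →* G') (q : ℕ) (g : Γ) (z : Bq Γ G q) :
    FF Γ f q (rB Γ G q g z) = rB Γ G' q g (FF Γ f q z) := by
  have h : (FF Γ f q) ∘ₗ (rB Γ G q g) = (rB Γ G' q g) ∘ₗ (FF Γ f q) := by
    apply TI_ext
    intro x v r
    rw [LinearMap.comp_apply, LinearMap.comp_apply, rB_single, FF_single, FF_single, rB_single]
  exact DFunLike.congr_fun h z

/-- The class of the injective homomorphisms on homology. -/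
theorem inj_of_lift (p : G →* Γ) (p' : G' →* Γ) (f : G →* G') {Z : ℕ → Type}
    [∀ q, AddCommGroup (Z q)] [∀ q, Module ℚ (Z q)] {ζ : ∀ q, Representation ℚ Γ (Z q)}
    {dz : ∀ q, Z (q + 1) →ₗ[ℚ] Z q} {h : ∀ q, Bq Γ G' q →ₗ[ℚ] Z q}
    (D : LiftData (Bq Γ G) (Bq Γ G') Z (rB Γ G) (rB Γ G') ζ (fun q => dd (repP p) q)
      (fun q => dd (repP p') q) dz (FF Γ f) h) (m : ℕ) (x : HQ (m + 1) G)
    (hx : hqMap f (m + 1) x = 0) : x = 0 := by
  obtain ⟨z, hz⟩ := exists_rpr _ (m + 1) x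
  have hzc := hz.cyc
  have h1 := hz.hq f
  rw [hx] at h1
  obtain ⟨w, hw⟩ := h1.eq_zero_iff.mp rfl
  have he : (sumC Γ) ∘ₗ (lsingle (1 : Γ) : ℚ →ₗ[ℚ] (Γ →₀ ℚ)) = LinearMap.id := by
    apply LinearMap.ext
    intro r
    rw [LinearMap.comp_apply, lsingle_apply, sumC_single]
    rfl
  have hl : ∀ {G : Type} [Group G] (n : ℕ) (y : T n G ℚ),
      mp n id (sumC Γ) (mp n id (lsingle (1 : Γ)) y) = y := by
    intro G _ n y
    rw [mp_mp, he]
    exact mp_id n y
  obtain ⟨u, hu⟩ := D.main m (mp (m + 1) id (lsingle (1 : Γ)) z) (by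
      rw [augS_rB, ← dd_sum, hl]
      exact (cyc_succ _ _ _).mp hzc) (mp (m + 2) id (lsingle (1 : Γ)) w) (by
      rw [augS_rB, map_sub, ← dd_sum, hl]
      have e : mp (m + 1) id (sumC Γ) (FF Γ f (m + 1) (mp (m + 1) id (lsingle (1 : Γ)) z)) =
          mp (m + 1) f LinearMap.id z := by
        unfold FF
        rw [mp_mp, mp_mp, LinearMap.comp_id, he]
        rfl
      rw [e]
      exact sub_eq_zero.mpr hw.symm)
  rw [augS_rB, map_sub, hl, ← dd_sum, sub_eq_zero] at hu
  exact hz.eq_zero_iff.mpr ⟨_, hu.symm⟩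

/-- Degree zero. -/
theorem inj_zero (f : G →* G') (x : HQ 0 G) (hx : hqMap f 0 x = 0) : x = 0 := by
  obtain ⟨z, hz⟩ := exists_rpr _ 0 x
  have h1 := hz.hq f
  rw [hx] at h1
  obtain ⟨w, hw⟩ := h1.eq_zero_iff.mp rfl
  have h0 : dd (tQ G') 0 = 0 := by
    apply T_ext
    intro y r
    rw [dd_single]
    simp only [Fin.sum_univ_succ, Finset.univ_eq_empty, Finset.sum_empty]
    have e : (fun i : Fin 0 => y i.succ) = Fin.contractNth (0 : Fin 1) (· * ·) y :=
      funext fun i => i.elim0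
    rw [e, tQ_apply]
    simp
  have h2 : mp 0 f LinearMap.id z = 0 := by
    refine Eq.trans ?_ (hw.symm.trans ?_)
    · rfl
    · change dd (tQ G') 0 w = 0
      rw [h0]
      rfl
  have h3 : z = 0 := by
    have h4 : z = single (fun i : Fin 0 => i.elim0) (z (fun i : Fin 0 => i.elim0)) := by
      refine Finsupp.ext fun a => ?_
      have : a = (fun i : Fin 0 => i.elim0) := funext fun i => i.elim0
      rw [this, single_eq_same]
    rw [h4, mp_single] at h2
    rw [h4]
    have h5 := Finsupp.single_eq_zero.mp h2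
    rw [LinearMap.id_apply] at h5
    rw [h5, single_zero]
  rw [h3] at hz
  exact hz.eq_zero_iff.mpr (Submodule.zero_mem _)

end

end Pool.Agent.T6.H34.TW
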