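import Pool.Agent.T6.H34.TW.Tw
import Pool.Agent.R615.KU.Gp

/-!
Twisted extensions by graph products: an extension of `Γ` by the graph product for `Λ`, with a
homomorphism to the semidirect product of `Γ` with the graph product for a larger graph `Λ'`.
-/

set_option autoImplicit false

namespace Pool.Agent.T6.H34.TW

open Monoid Pool.Agent.Y483 Pool.Agent.Y110.KW Pool.Agent.Y75.MQ Pool.Agent.R793.Mag CategoryTheory
  DirectSum Pool.Agent.Y483.PW Pointwise Pool.Agent.R615.KU

section Det

variable {V : Type} {P : V → Type} [∀ v, Group (P v)] {R : Set (CoprodI P)}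

/-- The rational homology of the quotient of a free product by local relations is detected by the
retractions to the cliques. -/
theorem ret_det (hR : IsLocal R) (n : ℕ) (x : HQ n (Quo R))
    (h : ∀ σ : Finset V, IsCl R σ → hqMap (ret hR (σ : Set V)) n x = 0) : x = 0 := by
  classical
  obtain ⟨S, hS⟩ := Pool.Agent.Y110.KW.exists_fin hR n x
  obtain ⟨k, hk⟩ : ∃ k, S.card = k := ⟨_, rfl⟩
  have hrr : ∀ (S T : Set V) (y : HQ n (Quo R)),
      hqMap (ret hR S) n (hqMap (ret hR T) n y) = hqMap (ret hR (S ∩ T)) n y := by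
    intro S T y
    rw [← hqMap_comp]
    congr 2
    exact MonoidHom.ext fun g => ret_ret hR S T g
  induction k using Nat.strong_induction_on generalizing S x with
  | _ k ih =>
    by_cases hcl : IsCl R S
    · rw [← hS]
      exact h S hcl
    · unfold IsCl at hcl
      push Not at hcl
      obtain ⟨u, hu, v, hv, huv, hl⟩ := hcl
      have hmem : ∀ T : Finset V, T ⊂ S → hqMap (ret hR (T : Set V)) n x = 0 := by
        intro T hT
        refine ih T.card (by rw [← hk]; exact Finset.card_lt_card hT) _ ?_ T ?_ rfl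
        · intro σ hσ
          rw [hrr, ← Finset.coe_inter]
          exact h _ fun a ha b hb hab => hσ a (Finset.mem_inter.mp ha).1 b
            (Finset.mem_inter.mp hb).1 hab
        · rw [hrr, Set.inter_self]
      have e1 : hqMap (ret hR {u}ᶜ) n x = hqMap (ret hR ((S.erase u : Finset V) : Set V)) n x := by
        conv_lhs => rw [← hS, hrr]
        congr 2
        congr 1
        ext w
        simp
        tauto
      have e2 : hqMap (ret hR {v}ᶜ) n x = hqMap (ret hR ((S.erase v : Finset V) : Set V)) n x := by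
        conv_lhs => rw [← hS, hrr]
        congr 2
        congr 1
        ext w
        simp
        tauto
      have e3 : hqMap (ret hR ({u}ᶜ ∩ {v}ᶜ)) n x =
          hqMap (ret hR (((S.erase u).erase v : Finset V) : Set V)) n x := by
        conv_lhs => rw [← hS, hrr]
        congr 2
        congr 1
        ext w
        simp
        tauto
      rw [id_eq hR huv hl n x, e1, e2, e3, hmem _ (Finset.erase_ssubset hu),
        hmem _ (Finset.erase_ssubset hv),
        hmem _ (lt_of_le_of_lt (Finset.erase_subset _ _) (Finset.erase_ssubset hu)), add_zero,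
        sub_zero]

end Det

section Maps

variable {V : Type} {P : V → Type} [∀ v, Group (P v)] {Λ Λ' : SimpleGraph V}

/-- The canonical homomorphism from the graph product for a graph to the graph product for a larger
graph. -/
noncomputable def canon (h : Λ ≤ Λ') : GP P Λ →* GP P Λ' :=
  quoLift (QuotientGroup.mk' (Subgroup.normalClosure (graphRel (P := P) Λ'))) (by
    rintro _ ⟨u, v, huv, x, y, rfl⟩
    exact mk_rel ⟨u, v, h huv, x, y, rfl⟩)

theorem canon_fac (h : Λ ≤ Λ') (v : V) (x : P v) :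
    canon h (fac (graphRel Λ) v x) = fac (graphRel Λ') v x := rfl

open Classical in
/-- The lift of the part of the graph product supported on `σ`, for the cliques `σ` of the smaller
graph. -/
noncomputable def liftC (Λ Λ' : SimpleGraph V) (σ : Finset V) : GP P Λ' →* GP P Λ :=
  if h : Λ.IsClique (σ : Set V) then
    (cliqueHom (P := P) Λ σ h).comp (MonoidHom.pi fun v : σ => proj Λ' (v : V))
  else 1

theorem liftC_mem {σ : Finset V} (hσ : Λ.IsClique (σ : Set V)) {v : V} (hv : v ∈ σ) (x : P v) :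
    liftC Λ Λ' σ (fac (graphRel Λ') v x) = fac (graphRel Λ) v x := by
  classical
  unfold liftC
  rw [dif_pos hσ]
  change cliqueHom (P := P) Λ σ hσ (fun w : σ => proj Λ' (w : V) (fac (graphRel Λ') v x)) =
    fac (graphRel Λ) v x
  have e : (fun w : σ => proj Λ' (w : V) (fac (graphRel Λ') v x)) =
      Pi.mulSingle (⟨v, hv⟩ : σ) x := by
    funext w
    by_cases hw : w = (⟨v, hv⟩ : σ)
    · subst hw
      rw [Pi.mulSingle_eq_same]
      exact proj_fac_self Λ' v x
    · rw [Pi.mulSingle_eq_of_ne hw]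
      exact proj_fac_ne Λ' (fun h => hw (Subtype.ext h.symm)) x
  rw [e]
  exact MonoidHom.noncommPiCoprod_mulSingle _ _ _

theorem liftC_notMem {σ : Finset V} (hσ : Λ.IsClique (σ : Set V)) {v : V} (hv : v ∉ σ) (x : P v) :
    liftC Λ Λ' σ (fac (graphRel Λ') v x) = 1 := by
  classical
  unfold liftC
  rw [dif_pos hσ]
  change cliqueHom (P := P) Λ σ hσ (fun w : σ => proj Λ' (w : V) (fac (graphRel Λ') v x)) = 1
  have e : (fun w : σ => proj Λ' (w : V) (fac (graphRel Λ') v x)) = 1 := by
    funext w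
    exact proj_fac_ne Λ' (fun h => hv (by rw [h]; exact w.2)) x
  rw [e, map_one]

theorem canon_liftC (h : Λ ≤ Λ') {σ : Finset V} (hσ : Λ.IsClique (σ : Set V)) (m : GP P Λ') :
    canon h (liftC Λ Λ' σ m) = ret (graphRel_local Λ') (σ : Set V) m := by
  have e : (canon (P := P) h).comp (liftC Λ Λ' σ) = ret (graphRel_local Λ') (σ : Set V) := by
    apply quo_ext
    intro v x
    rw [MonoidHom.comp_apply]
    by_cases hv : v ∈ σ
    · rw [liftC_mem hσ hv, canon_fac, ret_fac_mem _ (by exact_mod_cast hv)]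
    · rw [liftC_notMem hσ hv, map_one, ret_fac_notMem _ (by exact_mod_cast hv)]
  exact DFunLike.congr_fun e m

theorem liftC_ret {σ : Finset V} (hσ : Λ.IsClique (σ : Set V)) (m : GP P Λ') :
    liftC Λ Λ' σ (ret (graphRel_local Λ') (σ : Set V) m) = liftC Λ Λ' σ m := by
  have e : (liftC (P := P) Λ Λ' σ).comp (ret (graphRel_local Λ') (σ : Set V)) =
      liftC Λ Λ' σ := by
    apply quo_ext
    intro v x
    rw [MonoidHom.comp_apply]
    by_cases hv : v ∈ σ
    · rw [ret_fac_mem _ (by exact_mod_cast hv)]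
    · rw [ret_fac_notMem _ (by exact_mod_cast hv), liftC_notMem hσ hv, map_one]
  exact DFunLike.congr_fun e m

theorem liftC_canon (h : Λ ≤ Λ') {σ : Finset V} (hσ : Λ.IsClique (σ : Set V)) :
    (liftC (P := P) Λ Λ' σ).comp (canon h) = ret (graphRel_local Λ) (σ : Set V) := by
  apply quo_ext
  intro v x
  rw [MonoidHom.comp_apply, canon_fac]
  by_cases hv : v ∈ σ
  · rw [liftC_mem hσ hv, ret_fac_mem _ (by exact_mod_cast hv)]
  · rw [liftC_notMem hσ hv, ret_fac_notMem _ (by exact_mod_cast hv)]

end Maps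

section Act

variable {Γ V : Type} [Group Γ] [MulAction Γ V] {P : V → Type} [∀ v, Group (P v)]
  {Λ Λ' : SimpleGraph V} {ρ : Γ →* MulAut (CoprodI P)}

theorem preserves_graphRel (hP : Permutes ρ) (hΛ : Inv Γ Λ) :
    Preserves ρ (graphRel (P := P) Λ) := by
  rintro γ _ ⟨u, v, huv, x, y, rfl⟩
  obtain ⟨x', hx⟩ := hP γ u x
  obtain ⟨y', hy⟩ := hP γ v y
  refine ⟨γ • u, γ • v, hΛ γ u v huv, x', y', ?_⟩
  rw [map_mul, map_mul, map_mul, map_inv, map_inv, hx, hy]

theorem clique_fam (hΛ : Inv Γ Λ) : IsFam Γ (fun σ : Finset V => Λ.IsClique (σ : Set V)) where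
  down S T hS hT := hS.subset (by exact_mod_cast hT)
  inv γ S hS := by
    classical
    refine ⟨S.map (MulAction.toPerm γ).toEmbedding, ?_, ?_⟩
    · intro a ha b hb hab
      simp only [Finset.coe_map, Set.mem_image] at ha hb
      obtain ⟨a, ha, rfl⟩ := ha
      obtain ⟨b, hb, rfl⟩ := hb
      exact hΛ γ a b (hS ha hb (fun h => hab (by rw [h])))
    · rw [Finset.coe_map]
      rfl

omit [Group Γ] [MulAction Γ V] in
theorem canon_reach (h : Λ ≤ Λ') {σ : Finset V} (hσ : Λ.IsClique (σ : Set V)) :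
    Reach (canon (P := P) h) (ret (graphRel_local Λ') (σ : Set V)) := by
  intro n x
  refine ⟨hqMap (liftC Λ Λ' σ) n x, ?_⟩
  rw [← hqMap_comp]
  congr 2
  exact MonoidHom.ext fun m => canon_liftC h hσ m

omit [Group Γ] [MulAction Γ V] in
theorem canon_joint (h : Λ ≤ Λ') :
    JointInj fun σ : {σ : Finset V // Λ.IsClique (σ : Set V)} =>
      (ret (graphRel_local (P := P) Λ') (σ.1 : Set V)).comp (canon h) := by
  intro n x hx
  apply ret_det (graphRel_local Λ) n x
  intro σ hσ
  have hσ' : Λ.IsClique (σ : Set V) := fun a ha b hb hab =>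
    graphRel_linked Λ hab (hσ a ha b hb hab)
  have h1 := congrArg (hqMap (liftC (P := P) Λ Λ' σ) n) (hx ⟨σ, hσ'⟩)
  rw [map_zero, ← hqMap_comp] at h1
  rw [← liftC_canon h hσ', ← h1]
  congr 2
  exact MonoidHom.ext fun m => (liftC_ret hσ' _).symm

/-- The data of a twisted extension by a graph product. -/
noncomputable def gpTwist (h : Λ ≤ Λ') (hP : Permutes ρ) (hI : Preserves ρ (graphRel (P := P) Λ'))
    (hΛ : Inv Γ Λ) {G : Type} [Group G] (i : GP P Λ →* G)
    (π : G →* GP P Λ' ⋊[qAct hI] Γ) (hi : Function.Injective i)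
    (hπi : ∀ n, π (i n) = SemidirectProduct.inl (canon h n))
    (hex : ∀ g, (π g).right = 1 → ∃ n, i n = g) (hs : ∀ γ, ∃ g, (π g).right = γ) :
    Twist G Γ (GP P Λ) (GP P Λ') V where
  s := gpSys Λ' hP hI
  π := π
  i := i
  f := canon h
  ext := ⟨hs, hi, hex, hπi⟩
  C σ := Λ.IsClique (σ : Set V)
  fam := clique_fam hΛ
  img _ hS := canon_reach h hS
  jinj := canon_joint h

/-- **Twisted extensions by graph products**: the homology. -/
theorem gp_inj (h : Λ ≤ Λ') (hP : Permutes ρ) (hI : Preserves ρ (graphRel (P := P) Λ'))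
    (hΛ : Inv Γ Λ) {G : Type} [Group G] (i : GP P Λ →* G)
    (π : G →* GP P Λ' ⋊[qAct hI] Γ) (hi : Function.Injective i)
    (hπi : ∀ n, π (i n) = SemidirectProduct.inl (canon h n))
    (hex : ∀ g, (π g).right = 1 → ∃ n, i n = g) (hs : ∀ γ, ∃ g, (π g).right = γ)
    (j : ℕ) (x : HQ j G) (hx : hqMap π j x = 0) : x = 0 :=
  (gpTwist h hP hI hΛ i π hi hπi hex hs).inj j x hx

end Act

end Pool.Agent.T6.H34.TW
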