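import Pool.Agent.T6.H34.TW.Trn
import Pool.Agent.T6.H34.TW.Gph

/-!
Normal subgroups `N` of `G` whose rational homology vanishes above degree one, for instance free
normal subgroups: `H_j(G; ℚ) → H_j(G / R; ℚ)` is injective for `R ≤ [N, N]`.
-/

set_option autoImplicit false

namespace Pool.Agent.T6.H34.TW

open Finsupp Pool.Agent.Y483 Monoid Pool.Agent.Y110.KW

section Low

variable {N N' : Type} [Group N] [Group N']

theorem dd_zero (G : Type) [Group G] : dd (tQ G) 0 = 0 := by
  apply T_ext
  intro y r
  rw [dd_single]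
  simp only [Fin.sum_univ_succ, Finset.univ_eq_empty, Finset.sum_empty]
  have e : (fun i : Fin 0 => y i.succ) = Fin.contractNth (0 : Fin 1) (· * ·) y :=
    funext fun i => i.elim0
  rw [e, tQ_apply]
  simp

theorem cyc_low (G : Type) [Group G] {q : ℕ} (hq : q ≤ 1) (z : T q G ℚ) : Cyc (tQ G) q z := by
  cases q with
  | zero => exact Cyc.zero _ _
  | succ q =>
    have : q = 0 := by omega
    subst this
    rw [cyc_succ, dd_zero]
    rfl

omit [Group N] [Group N'] in
theorem mp_sect {f : N → N'} {s : N' → N} (hs : ∀ n, f (s n) = n) (q : ℕ) (z : T q N' ℚ) :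
    mp q f LinearMap.id (mp q s LinearMap.id z) = z := by
  rw [mp_mp, LinearMap.id_comp]
  have : f ∘ s = id := funext hs
  rw [this, mp_id]

theorem rpr_unique {G : Type} [Group G] {q : ℕ} {z : T q G ℚ} {x y : HQ q G}
    (hx : Rpr (Rep.trivial ℚ G ℚ) q z x) (hy : Rpr (Rep.trivial ℚ G ℚ) q z y) : x = y := by
  have h := hx.sub hy
  rw [sub_self] at h
  rw [← sub_eq_zero]
  exact h.eq_zero_iff.mpr (Submodule.zero_mem _)

theorem low_surj (f : N →* N') (hf : Function.Surjective f) {q : ℕ} (hq : q ≤ 1) (x : HQ q N') :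
    ∃ y : HQ q N, hqMap f q y = x := by
  obtain ⟨s, hs⟩ := hf.hasRightInverse
  obtain ⟨z, hz⟩ := exists_rpr _ q x
  obtain ⟨y, hy⟩ := exists_class (A := Rep.trivial ℚ N ℚ) q (mp q s LinearMap.id z)
    (cyc_low N hq _)
  refine ⟨y, ?_⟩
  have h1 := hy.hq f
  rw [mp_sect hs] at h1
  exact rpr_unique h1 hz

/-- The class of an element of the group. -/
noncomputable def cls (N : Type) [Group N] :
    N →* Multiplicative (T 1 N ℚ ⧸ LinearMap.range (dd (tQ N) 1)) :=
  MonoidHom.mk' (fun n => Multiplicative.ofAdd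
    ((LinearMap.range (dd (tQ N) 1)).mkQ (single (fun _ => n) 1))) (by
    intro g h
    rw [← ofAdd_add, ← map_add]
    congr 1
    rw [Submodule.mkQ_apply, Submodule.mkQ_apply, Submodule.Quotient.eq]
    refine ⟨single ![g, h] (-1), ?_⟩
    rw [dd_single, Fin.sum_univ_succ, Fin.sum_univ_succ]
    simp only [Finset.univ_eq_empty, Finset.sum_empty, tQ_apply, LinearMap.id_apply]
    have e1 : (fun i : Fin 1 => (![g, h] : Fin 2 → N) i.succ) = fun _ => h := by
      funext i
      have : i = 0 := Subsingleton.elim _ _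
      subst this
      rfl
    have e2 : Fin.contractNth (0 : Fin 2) (· * ·) (![g, h] : Fin 2 → N) = fun _ : Fin 1 => g * h := by
      funext i
      have : i = 0 := Subsingleton.elim _ _
      subst this
      rfl
    have e3 : Fin.contractNth (Fin.succ (0 : Fin 1)) (· * ·) (![g, h] : Fin 2 → N) =
        fun _ : Fin 1 => g := by
      funext i
      have : i = 0 := Subsingleton.elim _ _
      subst this
      rfl
    rw [e1, e2, e3]
    simp only [Fin.val_zero, Fin.val_succ, single_neg]
    norm_num
    abel)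

theorem low_inj (f : N →* N') (hf : Function.Surjective f) (hk : f.ker ≤ commutator N) {q : ℕ}
    (hq : q ≤ 1) (x : HQ q N) (hx : hqMap f q x = 0) : x = 0 := by
  cases q with
  | zero => exact inj_zero f x hx
  | succ q =>
    have : q = 0 := by omega
    subst this
    obtain ⟨s, hs⟩ := hf.hasRightInverse
    obtain ⟨z, hz⟩ := exists_rpr _ 1 x
    have h1 := hz.hq f
    rw [hx] at h1
    obtain ⟨w, hw⟩ := h1.eq_zero_iff.mp rfl
    have hw' : dd (tQ N') 1 w = mp 1 f LinearMap.id z := hw
    set w₂ := mp 2 s LinearMap.id w with hw₂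
    have h2 : mp 1 f LinearMap.id (z - dd (tQ N) 1 w₂) = 0 := by
      rw [map_sub, ← dd_mp (ρ := tQ N) (τ := tQ N') f LinearMap.id (fun _ _ => rfl) 1 w₂, hw₂,
        mp_sect hs, hw', sub_self]
    have hcls : ∀ n n' : N, f n = f n' → cls N n = cls N n' := by
      intro n n' h
      have h3 : n * n'⁻¹ ∈ f.ker := by
        rw [MonoidHom.mem_ker, map_mul, map_inv, h, mul_inv_cancel]
      have h4 : cls N (n * n'⁻¹) = 1 := Abelianization.commutator_subset_ker (cls N) (hk h3)
      rw [map_mul, map_inv, mul_inv_eq_one] at h4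
      exact h4
    have h5 : (LinearMap.range (dd (tQ N) 1)).mkQ ∘ₗ (mp 1 s LinearMap.id) ∘ₗ
        (mp 1 f LinearMap.id) = (LinearMap.range (dd (tQ N) 1)).mkQ := by
      apply T_ext
      intro g r
      rw [LinearMap.comp_apply, LinearMap.comp_apply, mp_single, mp_single]
      have h6 : ∀ (n : N), (single (fun _ : Fin 1 => n) r : T 1 N ℚ) =
          r • single (fun _ : Fin 1 => n) 1 := by
        intro n
        rw [Finsupp.smul_single, smul_eq_mul, mul_one]
      have e1 : g = fun _ => g 0 := by
        funext i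
        have : i = 0 := Subsingleton.elim _ _
        subst this
        rfl
      have e2 : (s ∘ f ∘ g : Fin 1 → N) = fun _ => s (f (g 0)) := by
        funext i
        have : i = 0 := Subsingleton.elim _ _
        subst this
        rfl
      rw [e2, LinearMap.id_apply, LinearMap.id_apply, h6]
      conv_rhs => rw [e1, h6]
      rw [map_smul, map_smul]
      congr 1
      exact congrArg Multiplicative.toAdd (hcls (s (f (g 0))) (g 0) (hs _))
    have h7 := DFunLike.congr_fun h5 (z - dd (tQ N) 1 w₂)
    rw [LinearMap.comp_apply, LinearMap.comp_apply, h2, map_zero, map_zero, eq_comm,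
      Submodule.mkQ_apply, Submodule.Quotient.mk_eq_zero] at h7
    apply hz.eq_zero_iff.mpr
    have h8 : z = (z - dd (tQ N) 1 w₂) + dd (tQ N) 1 w₂ := by abel
    rw [h8]
    exact Submodule.add_mem _ h7 ⟨w₂, rfl⟩

end Low

section

variable {G : Type} [Group G] (N R : Subgroup G) [N.Normal] [R.Normal]

/-- The rational homology of `G` embeds into the rational homology of `G / R` if `R ≤ [N, N]` and the
rational homology of `N` vanishes above degree one. -/
theorem quo_inj (hR : R ≤ ⁅N, N⁆) (hv : ∀ (q : ℕ), 1 < q → ∀ x : HQ q N, x = 0) (j : ℕ)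
    (x : HQ j G) (hx : hqMap (QuotientGroup.mk' R) j x = 0) : x = 0 := by
  have hRN : R ≤ N := hR.trans (Subgroup.commutator_le_left N N)
  let p' : G ⧸ R →* G ⧸ N := QuotientGroup.lift R (QuotientGroup.mk' N) (fun g hg => by
    rw [QuotientGroup.ker_mk']
    exact hRN hg)
  have hker : ((QuotientGroup.mk' R).subgroupMap N).ker ≤ commutator N := by
    intro n hn
    have h1 : QuotientGroup.mk' R (n : G) = 1 := congrArg Subtype.val (MonoidHom.mem_ker.mp hn)
    rw [QuotientGroup.mk'_apply, QuotientGroup.eq_one_iff] at h1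
    have h2 : (n : G) ∈ (commutator N).map N.subtype := by
      rw [commutator_def, Subgroup.map_commutator, ← MonoidHom.range_eq_map, Subgroup.range_subtype]
      exact hR h1
    obtain ⟨m, hm, hmn⟩ := h2
    have : m = n := Subtype.ext hmn
    rwa [← this]
  refine trn_inj (N' := N.map (QuotientGroup.mk' R)) 1 (QuotientGroup.mk' N) p'
    (QuotientGroup.mk' R) (fun _ => rfl) N.subtype
    (N.map (QuotientGroup.mk' R)).subtype ((QuotientGroup.mk' R).subgroupMap N) (fun _ => rfl)
    N.subtype_injective ?_ ?_ (QuotientGroup.mk'_surjective N)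
    (Subgroup.subtype_injective _) ?_ ?_ hv ?_ ?_ j x hx
  · intro n
    rw [QuotientGroup.mk'_apply, QuotientGroup.eq_one_iff]
    exact n.2
  · intro g hg
    rw [QuotientGroup.mk'_apply, QuotientGroup.eq_one_iff] at hg
    exact ⟨⟨g, hg⟩, rfl⟩
  · rintro ⟨_, g, hg, rfl⟩
    change QuotientGroup.mk' N g = 1
    rw [QuotientGroup.mk'_apply, QuotientGroup.eq_one_iff]
    exact hg
  · intro g hg
    obtain ⟨g, rfl⟩ := QuotientGroup.mk'_surjective R g
    have h1 : QuotientGroup.mk' N g = 1 := hg
    rw [QuotientGroup.mk'_apply, QuotientGroup.eq_one_iff] at h1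
    exact ⟨⟨_, g, h1, rfl⟩, rfl⟩
  · intro q hq y hy
    exact low_inj _ ((QuotientGroup.mk' R).subgroupMap_surjective N) hker hq y hy
  · intro q hq y
    exact low_surj _ ((QuotientGroup.mk' R).subgroupMap_surjective N) hq y

end

section FreeGroup

/-- The rational homology of a free group vanishes above degree one. -/
theorem hq_free (X : Type) {q : ℕ} (hq : 1 < q) (x : HQ q (FreeGroup X)) : x = 0 := by
  classical
  let P : X → Type := fun _ => Zn 1
  let e : FreeGroup X →* GP P ⊥ :=
    FreeGroup.lift fun v => fac (graphRel (P := P) ⊥) v (Multiplicative.ofAdd fun _ => 1)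
  let r : GP P (⊥ : SimpleGraph X) →* FreeGroup X := quoLift
    (CoprodI.lift fun v =>
      { toFun := fun m => (FreeGroup.of v) ^ (m.toAdd 0)
        map_one' := zpow_zero _
        map_mul' := fun a b => zpow_add _ _ _ }) (by
    rintro _ ⟨u, v, huv, _⟩
    exact huv.elim)
  have hre : r.comp e = MonoidHom.id _ := by
    apply FreeGroup.ext_hom
    intro v
    change r (e (FreeGroup.of v)) = FreeGroup.of v
    simp only [e, FreeGroup.lift_apply_of]
    change r (QuotientGroup.mk (CoprodI.of _)) = _
    simp only [r]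
    rw [quoLift_mk, CoprodI.lift_of]
    exact zpow_one _
  have hy : hqMap e q x = 0 := by
    apply ret_det (graphRel_local ⊥) q _
    intro σ hσ
    have hσ' : (⊥ : SimpleGraph X).IsClique (σ : Set X) := fun a ha b hb hab =>
      graphRel_linked ⊥ hab (hσ a ha b hb hab)
    rcases σ.eq_empty_or_nonempty with rfl | ⟨v, hv⟩
    · have e1 : ret (graphRel_local (P := P) ⊥) ((∅ : Finset X) : Set X) =
          (1 : Zn 0 →* GP P ⊥).comp (1 : GP P ⊥ →* Zn 0) := by
        apply quo_ext
        intro v x
        rw [ret_fac_notMem _ (by simp)]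
        rfl
      rw [e1, hqMap_comp, hq_eq_zero (by omega) (hqMap (1 : GP P ⊥ →* Zn 0) q _), map_zero]
    · have hs : ∀ w ∈ σ, w = v := by
        intro w hw
        by_contra hne
        exact hσ' hw hv hne
      have e1 : ret (graphRel_local (P := P) ⊥) (σ : Set X) =
          (fac (graphRel (P := P) ⊥) v).comp (proj ⊥ v) := by
        apply quo_ext
        intro w x
        by_cases hw : w = v
        · subst hw
          rw [ret_fac_mem _ (by exact_mod_cast hv), MonoidHom.comp_apply, proj_fac_self]
        · rw [ret_fac_notMem _ (fun h => hw (hs w (by exact_mod_cast h))), MonoidHom.comp_apply,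
            proj_fac_ne _ hw, map_one]
      rw [e1, hqMap_comp, hq_eq_zero hq (hqMap (proj (P := P) ⊥ v) q _), map_zero]
  have h1 := hqMap_comp r e q x
  rw [hre, hqMap_id, hy, map_zero] at h1
  exact h1

end FreeGroup

end Pool.Agent.T6.H34.TW
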