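import Pool.Agent.T6.H34.TW.LH
import Pool.Agent.T6.H34.TW.Free

/-!
The class of detecting groups: twisted extensions.
-/

set_option autoImplicit false

namespace Pool.Agent.T6.H34.TW

open Monoid Pool.Agent.Y483 Pool.Agent.Y110.KW Pool.Agent.Y75.MQ Pool.Agent.R793.Mag CategoryTheory
  DirectSum Pool.Agent.Y483.PW Pointwise Pool.Agent.R615.KU

variable {E : GrpCat.{0} ⥤ ModuleCat.{0} ℚ}

theorem hInj_iff {G K : Type} [Group G] [Group K] (π : G →* K) :
    HInj π ↔ ∀ j x, hqMap π j x = 0 → x = 0 :=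
  forall_congr' fun j => injective_iff_map_eq_zero (hqMap π j)

theorem Twist.hInj {G Γ N M V : Type} [Group G] [Group Γ] [Group N] [Group M]
    [MulAction Γ V] (t : Twist G Γ N M V) : HInj t.π := (hInj_iff _).mpr t.inj

theorem HInj.det {G K : Type} [Group G] [Group K] {π : G →* K} (h : HInj π) (hK : Det E K) :
    Det E G := hK.of_inj π ((hInj_iff π).mp h)

/-- **Twisted extensions**: homology. -/
theorem Extends.hInj {G Γ N M V : Type} [Group G] [Group Γ] [Group N] [Group M]
    [MulAction Γ V] {s : Sys Γ M V} {f : N →* M} {i : N →* G} {π : G →* s.G}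
    (h : Extends s f i π) (hf : Adapted s f) : HInj π := by
  obtain ⟨C, hC, hr, hj⟩ := hf
  exact Twist.hInj ⟨s, π, i, f, h, C, hC, hr, hj⟩

/-- **Twisted extensions.** -/
theorem Extends.det_sep (hE : HasPT E) {G Γ N M V : Type} [Group G] [Group Γ] [Group N] [Group M]
    [MulAction Γ V] {s : Sys Γ M V} {f : N →* M} {i : N →* G} {π : G →* s.G}
    (h : Extends s f i π) (hf : Adapted s f) (hσ : ∀ σ : s.Cl, Det E (s.supG σ.1)) : Det E G :=
  (h.hInj hf).det (Det.sys_sep hE s hσ)

/-- The canonical homomorphisms of graph products are adapted. -/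
theorem canon_adapted {Γ V : Type} [Group Γ] [MulAction Γ V] {P : V → Type}
    [∀ v, Group (P v)] {Λ Λ' : SimpleGraph V} {ρ : Γ →* MulAut (CoprodI P)} (h : Λ ≤ Λ')
    (hP : Permutes ρ) (hI : Preserves ρ (graphRel (P := P) Λ')) (hΛ : Inv Γ Λ) :
    Adapted (gpSys Λ' hP hI) (canon h) :=
  ⟨fun σ => Λ.IsClique (σ : Set V), clique_fam hΛ, fun _ hS => canon_reach h hS, canon_joint h⟩

/-- The canonical homomorphisms of graph products are adapted. -/
theorem isGP_adapted {Γ V N M : Type} [Group Γ] [MulAction Γ V] [Group N] [Group M]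
    {P : V → Type} [∀ v, Group (P v)] {Λ Λ' : SimpleGraph V} (h : Λ ≤ Λ') {c : ∀ v, P v →* N}
    {c' : ∀ v, P v →* M} {s : Sys Γ M V} {f : N →* M} (hc : IsGP Λ c) (hc' : IsGP Λ' c')
    (hf : ∀ v x, f (c v x) = c' v x) (hs : IsRet s c') (hΛ : Inv Γ Λ) : Adapted s f := by
  obtain ⟨e, he⟩ := hc
  obtain ⟨e', he'⟩ := hc'
  have h1 : f.comp e.toMonoidHom = e'.toMonoidHom.comp (canon h) := by
    apply quo_ext
    intro v x
    change f (e (fac (graphRel Λ) v x)) = e' (canon h (fac (graphRel Λ) v x))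
    rw [he, hf, canon_fac, he']
  have h2 : ∀ S : Set V, (s.e S).comp e'.toMonoidHom =
      e'.toMonoidHom.comp (ret (graphRel_local Λ') S) := by
    intro S
    apply quo_ext
    intro v x
    change s.e S (e' (fac (graphRel Λ') v x)) = e' (ret (graphRel_local Λ') S (fac (graphRel Λ') v x))
    rw [he', hs]
    by_cases hv : v ∈ S
    · rw [if_pos hv, ret_fac_mem _ hv, he']
    · rw [if_neg hv, ret_fac_notMem _ hv, map_one]
  refine ⟨fun σ => Λ.IsClique (σ : Set V), clique_fam hΛ, fun S hS => ?_, ?_⟩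
  · intro n x
    obtain ⟨y, hy⟩ := canon_reach (P := P) h hS n (hqMap e'.symm.toMonoidHom n x)
    refine ⟨hqMap e.toMonoidHom n y, ?_⟩
    rw [← hqMap_comp, h1, hqMap_comp, hy, ← hqMap_comp, ← h2, ← hqMap_comp]
    congr 2
    apply MonoidHom.ext
    intro m
    change s.e S (e' (e'.symm m)) = s.e S m
    rw [e'.apply_symm_apply]
  · intro n x hx
    have h3 : hqMap e.symm.toMonoidHom n x = 0 := by
      apply canon_joint (P := P) h n
      intro S
      have h4 := congrArg (hqMap e'.symm.toMonoidHom n) (hx S)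
      rw [map_zero, ← hqMap_comp] at h4
      rw [← hqMap_comp, ← h4]
      congr 2
      apply MonoidHom.ext
      intro m
      change ret (graphRel_local Λ') (S.1 : Set V) (canon h (e.symm m)) =
        e'.symm (s.e (S.1 : Set V) (f m))
      have h5 : f m = e' (canon h (e.symm m)) := by
        have := DFunLike.congr_fun h1 (e.symm m)
        change f (e (e.symm m)) = e' (canon h (e.symm m)) at this
        rwa [e.apply_symm_apply] at this
      have h6 : s.e (S.1 : Set V) (e' (canon h (e.symm m))) =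
          e' (ret (graphRel_local Λ') (S.1 : Set V) (canon h (e.symm m))) :=
        DFunLike.congr_fun (h2 (S.1 : Set V)) (canon h (e.symm m))
      rw [h5, h6, e'.symm_apply_apply]
    have h7 := congrArg (hqMap e.toMonoidHom n) h3
    rw [map_zero, ← hqMap_comp] at h7
    rw [← hqMap_id N n x, ← h7]
    congr 2
    exact MonoidHom.ext fun m => (e.apply_symm_apply m).symm

/-- **Twisted extensions by graph products.** -/
theorem det_gp (hE : HasPT E) {Γ V : Type} [Group Γ] [MulAction Γ V] {P : V → Type}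
    [∀ v, Group (P v)] {Λ Λ' : SimpleGraph V} {ρ : Γ →* MulAut (CoprodI P)} (h : Λ ≤ Λ')
    (hP : Permutes ρ) (hI : Preserves ρ (graphRel (P := P) Λ')) (hΛ : Inv Γ Λ) {G : Type}
    [Group G] (i : GP P Λ →* G) (π : G →* GP P Λ' ⋊[qAct hI] Γ) (hi : Function.Injective i)
    (hπi : ∀ n, π (i n) = SemidirectProduct.inl (canon h n))
    (hex : ∀ g, (π g).right = 1 → ∃ n, i n = g) (hs : ∀ γ, ∃ g, (π g).right = γ)
    (hσ : ∀ σ : Finset V, Λ'.IsClique (σ : Set V) → Det E (locG (graphRel_local Λ') hP hI σ)) :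
    Det E G := by
  have h1 : Det E (GP P Λ' ⋊[qAct hI] Γ) := by
    refine Det.sys hE (gpSys Λ' hP hI) (Linked (graphRel (P := P) Λ'))
      (locSys_adj (graphRel_local Λ') hP hI) ?_
    intro σ
    apply hσ
    intro a ha b hb hab
    exact graphRel_linked Λ' hab (σ.2 a ha b hb hab)
  exact h1.of_inj π (gp_inj h hP hI hΛ i π hi hπi hex hs)

/-- Extensions with a homomorphism which is injective on the homology of the kernel. -/
theorem det_lh {G Γ N M : Type} [Group G] [Group Γ] [Group N] [Group M] (i : N →* G)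
    (p : G →* Γ) (φ : G →* M) (hi : Function.Injective i)
    (h1 : ∀ n, p (i n) = 1) (hex : ∀ g, p g = 1 → ∃ n, i n = g) (hs : Function.Surjective p)
    (hinj : ∀ q, Function.Injective (hqMap (φ.comp i) q)) (hM : Det E M) (hΓ : Det E Γ) :
    Det E G :=
  (hM.prod hΓ).of_inj (φ.prod p) (lh_inj i p φ hi h1 hex hs
    fun q => (injective_iff_map_eq_zero _).mp (hinj q))

/-- The canonical homomorphism of graph products is injective on homology. -/
theorem canon_inj {V : Type} {P : V → Type} [∀ v, Group (P v)] {Λ Λ' : SimpleGraph V}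
    (h : Λ ≤ Λ') (q : ℕ) : Function.Injective (hqMap (canon (P := P) h) q) := by
  apply (injective_iff_map_eq_zero _).mpr
  intro x hx
  apply ret_det (graphRel_local Λ) q x
  intro σ hσ
  have hσ' : Λ.IsClique (σ : Set V) := fun a ha b hb hab =>
    graphRel_linked Λ hab (hσ a ha b hb hab)
  rw [← liftC_canon h hσ', hqMap_comp, hx, map_zero]

/-- Groups which act trivially modulo the relations of the larger graph. -/
theorem det_semi (hE : HasPT E) {Γ V : Type} [Group Γ] {P : V → Type} [∀ v, Group (P v)]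
    {Λ Λ' : SimpleGraph V} (h : Λ ≤ Λ') (ψ : Γ →* MulAut (GP P Λ))
    (hψ : ∀ γ n, canon h (ψ γ n) = canon h n) (hK : ∀ v, Det E (P v)) (hΓ : Det E Γ) :
    Det E (GP P Λ ⋊[ψ] Γ) := by
  refine det_lh (SemidirectProduct.inl : GP P Λ →* GP P Λ ⋊[ψ] Γ) SemidirectProduct.rightHom
    (SemidirectProduct.lift (canon h) 1 (fun γ => ?_)) SemidirectProduct.inl_injective
    (fun n => rfl) (fun g hg => ⟨g.left, ?_⟩) SemidirectProduct.rightHom_surjective ?_
    (Det.graph Λ' hE hK) hΓ
  · apply MonoidHom.ext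
    intro n
    rw [MonoidHom.comp_apply, MonoidHom.comp_apply]
    change canon h (ψ γ n) = 1 * canon h n * 1⁻¹
    rw [hψ, one_mul, inv_one, mul_one]
  · exact SemidirectProduct.ext rfl hg.symm
  · intro q
    have e : (SemidirectProduct.lift (canon h) 1 (fun γ => by
        apply MonoidHom.ext
        intro n
        rw [MonoidHom.comp_apply, MonoidHom.comp_apply]
        change canon h (ψ γ n) = 1 * canon h n * 1⁻¹
        rw [hψ, one_mul, inv_one, mul_one]) : GP P Λ ⋊[ψ] Γ →* GP P Λ').comp
        SemidirectProduct.inl = canon h := SemidirectProduct.lift_comp_inl _ _ _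
    rw [e]
    exact canon_inj h q

/-- The graph product of commutative groups for a complete graph is commutative. -/
theorem gp_top_comm {V : Type} {P : V → Type} [∀ v, CommGroup (P v)]
    (a b : GP P (⊤ : SimpleGraph V)) : Commute a b := by
  have key : ∀ (v : V) (x : P v) (b : GP P (⊤ : SimpleGraph V)),
      Commute (fac (graphRel ⊤) v x) b := by
    intro v x b
    have h1 : b ∈ Subgroup.centralizer ({fac (graphRel ⊤) v x} : Set (GP P ⊤)) := by
      have h2 : Subgroup.centralizer ({fac (graphRel ⊤) v x} : Set (GP P ⊤)) = ⊤ := by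
        apply eq_top_of_fac
        intro w y
        rw [Subgroup.mem_centralizer_singleton_iff]
        by_cases hw : w = v
        · subst hw
          rw [← map_mul, ← map_mul, mul_comm]
        · exact gp_comm ⊤ hw y x
      rw [h2]
      trivial
    rw [Subgroup.mem_centralizer_singleton_iff] at h1
    exact h1.symm
  have h1 : a ∈ Subgroup.centralizer ({b} : Set (GP P ⊤)) := by
    have h2 : Subgroup.centralizer ({b} : Set (GP P ⊤)) = ⊤ := by
      apply eq_top_of_fac
      intro w y
      rw [Subgroup.mem_centralizer_singleton_iff]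
      exact key w y b
    rw [h2]
    trivial
  rw [Subgroup.mem_centralizer_singleton_iff] at h1
  exact h1

/-- Graph products of commutative groups, and groups which act trivially on the abelianization. -/
theorem det_ia (hE : HasPT E) {Γ V : Type} [Group Γ] {P : V → Type} [∀ v, CommGroup (P v)]
    (Λ : SimpleGraph V) (ψ : Γ →* MulAut (GP P Λ))
    (hψ : ∀ γ n, ψ γ n * n⁻¹ ∈ commutator (GP P Λ)) (hK : ∀ v, Det E (P v)) (hΓ : Det E Γ) :
    Det E (GP P Λ ⋊[ψ] Γ) := by
  have hc : ∀ a b : GP P (⊤ : SimpleGraph V), Commute a b := gp_top_comm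
  refine det_semi hE (le_top : Λ ≤ ⊤) ψ (fun γ n => ?_) hK hΓ
  let c : CommGroup (GP P (⊤ : SimpleGraph V)) :=
    { (inferInstance : Group (GP P (⊤ : SimpleGraph V))) with mul_comm := fun a b => hc a b }
  have h3 : ψ γ n * n⁻¹ ∈ (canon (P := P) (le_top : Λ ≤ ⊤)).ker := by
    have h4 : commutator (GP P Λ) ≤ (canon (P := P) (le_top : Λ ≤ ⊤)).ker := by
      rw [commutator_def, Subgroup.commutator_le]
      intro a _ b _
      rw [MonoidHom.mem_ker, map_commutatorElement, commutatorElement_eq_one_iff_commute]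
      exact hc _ _
    exact h4 (hψ γ n)
  rw [MonoidHom.mem_ker, map_mul, map_inv, mul_inv_eq_one] at h3
  exact h3

/-- Graph products of commutative groups, up to isomorphism, and groups which act trivially on the
abelianization. -/
theorem det_ia' (hE : HasPT E) {Γ V N : Type} [Group Γ] [Group N] {P : V → Type}
    [∀ v, CommGroup (P v)] (Λ : SimpleGraph V) {c : ∀ v, P v →* N} (hc : IsGP Λ c)
    (ψ : Γ →* MulAut N) (hψ : ∀ γ n, ψ γ n * n⁻¹ ∈ commutator N) (hK : ∀ v, Det E (P v))
    (hΓ : Det E Γ) : Det E (N ⋊[ψ] Γ) := by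
  obtain ⟨e, -⟩ : ∃ _ : N ≃* GP P Λ, True := ⟨hc.choose.symm, trivial⟩
  let ψ' : Γ →* MulAut (GP P Λ) := (MulAut.congr e).toMonoidHom.comp ψ
  have hψ' : ∀ γ n, ψ' γ n = e (ψ γ (e.symm n)) := fun γ n => rfl
  refine (det_ia hE Λ ψ' (fun γ n => ?_) hK hΓ).congr
    { toFun := fun x => ⟨e x.left, x.right⟩
      invFun := fun x => ⟨e.symm x.left, x.right⟩
      left_inv := fun x => SemidirectProduct.ext (e.symm_apply_apply _) rfl
      right_inv := fun x => SemidirectProduct.ext (e.apply_symm_apply _) rfl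
      map_mul' := fun x y => SemidirectProduct.ext (by
        change e (x.left * ψ x.right y.left) = e x.left * ψ' x.right (e y.left)
        rw [hψ', e.symm_apply_apply, map_mul]) rfl }
  have h1 : ψ' γ n * n⁻¹ = e (ψ γ (e.symm n) * (e.symm n)⁻¹) := by
    rw [hψ', map_mul, map_inv, e.apply_symm_apply]
  rw [h1]
  have h2 : (commutator N).map e.toMonoidHom ≤ commutator (GP P Λ) := by
    rw [commutator_def, commutator_def, Subgroup.map_commutator]
    exact Subgroup.commutator_mono le_top le_top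
  exact h2 ⟨_, hψ γ (e.symm n), rfl⟩

/-- Quotients by subgroups of the commutator subgroup of a normal subgroup whose homology vanishes
above degree one. -/
theorem det_quo {G : Type} [Group G] (N R : Subgroup G) [N.Normal] [R.Normal]
    (hR : R ≤ ⁅N, N⁆) (hv : ∀ (q : ℕ), 1 < q → ∀ x : HQ q N, x = 0) (h : Det E (G ⧸ R)) :
    Det E G :=
  h.of_inj (QuotientGroup.mk' R) (quo_inj N R hR hv)

theorem hq_equiv {G K : Type} [Group G] [Group K] (e : G ≃* K) {q : ℕ}
    (h : ∀ x : HQ q K, x = 0) (x : HQ q G) : x = 0 := by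
  have h1 := hqMap_comp e.symm.toMonoidHom e.toMonoidHom q x
  have e1 : e.symm.toMonoidHom.comp e.toMonoidHom = MonoidHom.id G :=
    MonoidHom.ext fun y => e.symm_apply_apply y
  rw [e1, hqMap_id, h (hqMap e.toMonoidHom q x), map_zero] at h1
  exact h1

/-- Free normal subgroups. -/
theorem det_free {G : Type} [Group G] (N R : Subgroup G) [N.Normal] [R.Normal] [IsFreeGroup N]
    (hR : R ≤ ⁅N, N⁆) (h : Det E (G ⧸ R)) : Det E G :=
  det_quo N R hR (fun _ hq => hq_equiv (IsFreeGroup.toFreeGroup N) (hq_free _ hq)) h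

end Pool.Agent.T6.H34.TW
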