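import Pool.Agent.Y483.PW.Def
import Pool.Agent.Y110.KW.Par

/-!
Graph products: definitions.
-/

set_option autoImplicit false

namespace Pool.Agent.T6.H34.TW

open Pool.Agent.Y483 Pool.Agent.Y483.PW Pool.Agent.Y110.KW Pointwise Monoid

/-- The group `N` is the graph product of the groups `P v` for the graph `Λ`, through the
homomorphisms `c v : P v → N`. -/
def IsGP {V : Type} {P : V → Type} [∀ v, Group (P v)] (Λ : SimpleGraph V) {N : Type} [Group N]
    (c : ∀ v, P v →* N) : Prop :=
  ∃ e : GP P Λ ≃* N, ∀ v x, e (fac (graphRel Λ) v x) = c v x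

open Classical in
/-- The endomorphism `e S` of `M` fixes the elements `c v x` with `v ∈ S` and maps the others to `1`. -/
def IsRet {Γ M V : Type} [Group Γ] [Group M] [MulAction Γ V] (s : Sys Γ M V) {P : V → Type}
    [∀ v, Group (P v)] (c : ∀ v, P v →* M) : Prop :=
  ∀ (S : Set V) (v : V) (x : P v), s.e S (c v x) = if v ∈ S then c v x else 1

/-- The graph is invariant. -/
def Inv (Γ : Type) [Group Γ] {V : Type} [MulAction Γ V] (Λ : SimpleGraph V) : Prop :=
  ∀ (γ : Γ) (u v : V), Λ.Adj u v → Λ.Adj (γ • u) (γ • v)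

end Pool.Agent.T6.H34.TW
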