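import Pool.Agent.Y483.PW.Def

/-!
Twisted extensions: definitions.
-/

set_option autoImplicit false

namespace Pool.Agent.T6.H34.TW

open Pool.Agent.Y483 Pool.Agent.Y483.PW Pointwise

/-- The homomorphism `π` is injective on rational homology. -/
def HInj {G K : Type} [Group G] [Group K] (π : G →* K) : Prop :=
  ∀ j, Function.Injective (hqMap π j)

/-- On rational homology, the image of `e` is contained in the image of `f`. -/
def Reach {N M : Type} [Group N] [Group M] (f : N →* M) (e : M →* M) : Prop :=
  ∀ (n : ℕ) (x : HQ n M), ∃ y : HQ n N, hqMap f n y = hqMap e n x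

/-- A rational homology class of `N` vanishes if all the homomorphisms `a i` map it to zero. -/
def JointInj {N M I : Type} [Group N] [Group M] (a : I → (N →* M)) : Prop :=
  ∀ (n : ℕ) (x : HQ n N), (∀ i, hqMap (a i) n x = 0) → x = 0

/-- `C` is an invariant family of finite subsets of `V`, closed under subsets. -/
structure IsFam (Γ : Type) {V : Type} [Group Γ] [MulAction Γ V] (C : Finset V → Prop) : Prop where
  down : ∀ S T : Finset V, C S → T ⊆ S → C T
  inv : ∀ (γ : Γ) (S : Finset V), C S → ∃ T : Finset V, C T ∧ (T : Set V) = γ • (S : Set V)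

/-- The homomorphism `f : N → M` is adapted to a family of finite sets: the images of the homology of
`M` under the retractions to these sets are in the image of the homology of `N`, and the compositions
of `f` with these retractions detect the homology of `N`. -/
def Adapted {Γ N M V : Type} [Group Γ] [Group N] [Group M] [MulAction Γ V] (s : Sys Γ M V)
    (f : N →* M) : Prop :=
  ∃ C : Finset V → Prop, IsFam Γ C ∧ (∀ S, C S → Reach f (s.e (S : Set V))) ∧
    JointInj fun S : {S : Finset V // C S} => (s.e (S.1 : Set V)).comp f

/-- The homomorphism `π : G → M ⋊ Γ` maps onto `Γ`, and `i` is an isomorphism of `N` with the kernel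
of `G → Γ` such that `π i = f`. -/
structure Extends {G Γ N M V : Type} [Group G] [Group Γ] [Group N] [Group M] [MulAction Γ V]
    (s : Sys Γ M V) (f : N →* M) (i : N →* G) (π : G →* s.G) : Prop where
  surj : ∀ γ : Γ, ∃ g, (π g).right = γ
  i_inj : Function.Injective i
  i_ex : ∀ g, (π g).right = 1 → ∃ n, i n = g
  i_left : ∀ n, π (i n) = SemidirectProduct.inl (f n)

end Pool.Agent.T6.H34.TW
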