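import Pool.Agent.T6.H34.TW.Cmp
import Pool.Agent.Y483.PW.Def
import Pool.Agent.Y483.Combi
import Pool.Agent.T6.H34.TW.TDef
import Pool.Agent.T6.H34.TW.GDef

/-!
Twisted extensions: `Γ` acts on `M` with a system of supports, `π : G → M ⋊ Γ` is a homomorphism such
that `G → Γ` is surjective with kernel `N`, `f : N → M` is the restriction of `π`, `C` is an invariant
family of finite sets closed under subsets, the images of the homology of `M` under the retractions
with supports in `C` are in the image of the homology of `N`, and the rational homology of `N` is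
detected by the compositions with these retractions.  Then `H_j(G; ℚ) → H_j(M ⋊ Γ; ℚ)` is
injective.
-/

set_option autoImplicit false

namespace Pool.Agent.T6.H34.TW

open Finsupp Pool.Agent.Y483 Pool.Agent.Y483.PW Pointwise

/-- The data for a twisted extension. -/
structure Twist (G Γ N M V : Type) [Group G] [Group Γ] [Group N] [Group M] [MulAction Γ V] where
  /-- The system of supports of `M`. -/
  s : Sys Γ M V
  /-- The homomorphism of `G`. -/
  π : G →* s.G
  /-- The inclusion of the kernel of `G → Γ`. -/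
  i : N →* G
  /-- The restriction of `π`. -/
  f : N →* M
  ext : Extends s f i π
  /-- The family of finite sets. -/
  C : Finset V → Prop
  fam : IsFam Γ C
  img : ∀ S, C S → Reach f (s.e (S : Set V))
  jinj : JointInj fun S : {S : Finset V // C S} => (s.e (S.1 : Set V)).comp f

namespace Twist

variable {G Γ N M V : Type} [Group G] [Group Γ] [Group N] [Group M] [MulAction Γ V]
  (t : Twist G Γ N M V)

theorem surj : ∀ γ : Γ, ∃ g, (t.π g).right = γ := t.ext.surj

theorem i_inj : Function.Injective t.i := t.ext.i_inj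

theorem i_right (n : N) : (t.π (t.i n)).right = 1 := congrArg SemidirectProduct.right (t.ext.i_left n)

theorem i_ex : ∀ g, (t.π g).right = 1 → ∃ n, t.i n = g := t.ext.i_ex

theorem i_left (n : N) : (t.π (t.i n)).left = t.f n :=
  congrArg SemidirectProduct.left (t.ext.i_left n)

theorem down : ∀ S T : Finset V, t.C S → T ⊆ S → t.C T := t.fam.down

theorem inv : ∀ (γ : Γ) (S : Finset V), t.C S → ∃ T : Finset V, t.C T ∧
    (T : Set V) = γ • (S : Set V) := t.fam.inv

theorem det (n : ℕ) (x : HQ n N)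
    (h : ∀ S, t.C S → hqMap ((t.s.e (S : Set V)).comp t.f) n x = 0) : x = 0 :=
  t.jinj n x fun S => h S.1 S.2

end Twist

section Cycles

variable {G : Type} [Group G] {M : Type} [AddCommGroup M] [Module ℚ M]

/-- The submodule of the cycles. -/
def cycSub (ρ : Representation ℚ G M) (n : ℕ) : Submodule ℚ (T n G M) where
  carrier := {z | Cyc ρ n z}
  add_mem' {a b} ha hb := by
    cases n with
    | zero => exact Cyc.zero _ _
    | succ n =>
      change Cyc ρ (n + 1) (a + b)
      change Cyc ρ (n + 1) a at ha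
      change Cyc ρ (n + 1) b at hb
      rw [cyc_succ] at *
      rw [map_add, ha, hb, add_zero]
  zero_mem' := by
    cases n with
    | zero => exact Cyc.zero _ _
    | succ n =>
      change Cyc ρ (n + 1) 0
      rw [cyc_succ, map_zero]
  smul_mem' c a ha := by
    cases n with
    | zero => exact Cyc.zero _ _
    | succ n =>
      change Cyc ρ (n + 1) (c • a)
      change Cyc ρ (n + 1) a at ha
      rw [cyc_succ] at *
      rw [map_smul, ha, smul_zero]

theorem mem_cycSub (ρ : Representation ℚ G M) (n : ℕ) (z : T n G M) :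
    z ∈ cycSub ρ n ↔ Cyc ρ n z := Iff.rfl

end Cycles

namespace Twist

variable {G Γ N M V : Type} [Group G] [Group Γ] [Group N] [Group M] [MulAction Γ V]
  (t : Twist G Γ N M V)

/-- The retraction on chains. -/
noncomputable abbrev ee (S : Set V) (q : ℕ) : T q M ℚ →ₗ[ℚ] T q M ℚ :=
  mp q (t.s.e S) LinearMap.id

/-- The chains of `M` which are killed by all retractions to the sets of `C`. -/
noncomputable def DD (q : ℕ) : Submodule ℚ (T q M ℚ) :=
  ⨅ S : {S : Finset V // t.C S}, LinearMap.ker (t.ee (S.1 : Set V) q)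

theorem mem_DD (q : ℕ) (z : T q M ℚ) : z ∈ t.DD q ↔ ∀ S, t.C S → t.ee (S : Set V) q z = 0 := by
  unfold DD
  rw [Submodule.mem_iInf]
  exact ⟨fun h S hS => h ⟨S, hS⟩, fun h S => h S.1 S.2⟩

theorem dd_ee (S : Set V) (q : ℕ) (z : T (q + 1) M ℚ) :
    dd (trivR M ℚ) q (t.ee S (q + 1) z) = t.ee S q (dd (trivR M ℚ) q z) :=
  dd_mp (ρ := trivR M ℚ) (τ := trivR M ℚ) (t.s.e S) LinearMap.id (fun _ _ => rfl) q z

theorem ee_ee (S S' : Set V) (q : ℕ) (z : T q M ℚ) :
    t.ee S q (t.ee S' q z) = t.ee (S ∩ S') q z := by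
  unfold ee
  rw [mp_mp, LinearMap.id_comp]
  congr 2
  funext m
  exact t.s.inter S S' m

theorem dd_DD (q : ℕ) {z : T (q + 1) M ℚ} (hz : z ∈ t.DD (q + 1)) :
    dd (trivR M ℚ) q z ∈ t.DD q := by
  rw [mem_DD] at *
  intro S hS
  rw [← dd_ee, hz S hS, map_zero]

/-- Every chain is supported on a finite set. -/
theorem exists_fin (q : ℕ) (z : T q M ℚ) : ∃ S : Finset V, t.ee (S : Set V) q z = z := by
  classical
  have mono : ∀ (S S' : Finset V), S ⊆ S' → ∀ y : T q M ℚ,
      t.ee (S : Set V) q y = y → t.ee (S' : Set V) q y = y := by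
    intro S S' hST y hy
    rw [← hy, ee_ee, Set.inter_eq_right.mpr (by exact_mod_cast hST)]
  induction z using Finsupp.induction_linear with
  | zero => exact ⟨∅, map_zero _⟩
  | add a b ha hb =>
    obtain ⟨S, hS⟩ := ha
    obtain ⟨S', hS'⟩ := hb
    exact ⟨S ∪ S', by rw [map_add, mono S _ Finset.subset_union_left a hS,
      mono S' _ Finset.subset_union_right b hS']⟩
  | single g m =>
    choose S hS using fun i => t.s.finite (g i)
    refine ⟨Finset.univ.biUnion S, ?_⟩
    rw [ee, mp_single]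
    congr 1
    funext i
    rw [Function.comp_apply]
    conv_rhs => rw [← hS i]
    conv_lhs => rw [← hS i]
    rw [t.s.inter, Set.inter_eq_right.mpr]
    intro w hw
    simp only [Finset.coe_biUnion, Set.mem_iUnion]
    exact ⟨i, by simp, hw⟩

/-- Lifting of relative cycles. -/
theorem lift_cycle (q : ℕ) (z : T q M ℚ)
    (hz : ∀ S, t.C S → Cyc (trivR M ℚ) q (t.ee (S : Set V) q z)) :
    ∃ (y : T q N ℚ) (w : T (q + 1) M ℚ), Cyc (trivR N ℚ) q y ∧
      z - mp q t.f LinearMap.id y + dd (trivR M ℚ) q w ∈ t.DD q := by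
  classical
  obtain ⟨S₀, hS₀⟩ := t.exists_fin q z
  have hch : ∀ U : Finset V, ∃ yw : T q N ℚ × T (q + 1) M ℚ, t.C U →
      Cyc (trivR N ℚ) q yw.1 ∧
        mp q t.f LinearMap.id yw.1 = t.ee (U : Set V) q z + dd (trivR M ℚ) q yw.2 := by
    intro U
    by_cases hU : t.C U
    · obtain ⟨x, hx⟩ := exists_class (A := Rep.trivial ℚ M ℚ) q _ (hz U hU)
      obtain ⟨v, hv⟩ := t.img U hU q x
      obtain ⟨y, hy⟩ := exists_rpr _ q v
      have h1 := hy.hq t.f
      have h2 := hx.hq (t.s.e (U : Set V))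
      rw [hv] at h1
      have h3 := h1.sub h2
      rw [sub_self] at h3
      obtain ⟨w, hw⟩ := h3.eq_zero_iff.mp rfl
      refine ⟨(y, w), fun _ => ⟨hy.cyc, ?_⟩⟩
      have h4 : mp q (t.s.e (U : Set V)) LinearMap.id (t.ee (U : Set V) q z) =
          t.ee (U : Set V) q z := by
        have := t.ee_ee (U : Set V) (U : Set V) q z
        rwa [Set.inter_self] at this
      have h5 : dd (trivR M ℚ) q w = mp q t.f LinearMap.id y -
          mp q (t.s.e (U : Set V)) LinearMap.id (t.ee (U : Set V) q z) := hw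
      rw [h4] at h5
      rw [h5, add_sub_cancel]
    · exact ⟨(0, 0), fun h => absurd h hU⟩
  choose yw hyw using hch
  let φ : Finset V → T q N ℚ := fun U => (yw U).1
  let θ : Finset V → T (q + 1) M ℚ := fun U => (yw U).2
  have hφ : ∀ U, t.C U → Cyc (trivR N ℚ) q (φ U) := fun U hU => (hyw U hU).1
  refine ⟨∑ W ∈ S₀.powerset.filter t.C, moeb φ W, ∑ W ∈ S₀.powerset.filter t.C, moeb θ W, ?_, ?_⟩
  · rw [← mem_cycSub]
    apply Submodule.sum_mem
    intro W hW
    rw [Finset.mem_filter, Finset.mem_powerset] at hW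
    unfold moeb
    apply Submodule.sum_mem
    intro U hU
    exact zsmul_mem (hφ U (t.down W U hW.2 (Finset.mem_powerset.mp hU))) _
  · rw [mem_DD]
    intro S hS
    let χ : Finset V → T q M ℚ := fun U => t.ee ((S : Set V) ∩ U) q z
    have h1 : ∀ W, t.C W → t.ee (S : Set V) q (mp q t.f LinearMap.id (moeb φ W) -
        dd (trivR M ℚ) q (moeb θ W)) = moeb χ W := by
      intro W hW
      unfold moeb
      rw [map_sum, map_sum, ← Finset.sum_sub_distrib, map_sum]
      apply Finset.sum_congr rfl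
      intro U hU
      rw [map_zsmul, map_zsmul, ← smul_sub, map_zsmul]
      congr 1
      have hU' := t.down W U hW (Finset.mem_powerset.mp hU)
      have e : mp q t.f LinearMap.id (φ U) - dd (trivR M ℚ) q (θ U) = t.ee (U : Set V) q z := by
        rw [(hyw U hU').2, add_sub_cancel_right]
      rw [e, ee_ee]
    have h2 : ∀ U, χ U = χ (U ∩ S) := by
      intro U
      simp only [χ]
      congr 2
      rw [Finset.coe_inter, Set.inter_comm (S : Set V) (U : Set V), ← Set.inter_comm (U ∩ S : Set V),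
        Set.inter_assoc, Set.inter_self]
    have h3 : t.ee (S : Set V) q (mp q t.f LinearMap.id (∑ W ∈ S₀.powerset.filter t.C, moeb φ W) -
        dd (trivR M ℚ) q (∑ W ∈ S₀.powerset.filter t.C, moeb θ W)) =
        ∑ W ∈ (S₀ ∩ S).powerset, moeb χ W := by
      rw [map_sum, map_sum, ← Finset.sum_sub_distrib, map_sum]
      have h4 : (S₀ ∩ S).powerset ⊆ S₀.powerset.filter t.C := by
        intro W hW
        rw [Finset.mem_powerset] at hW
        rw [Finset.mem_filter, Finset.mem_powerset]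
        exact ⟨hW.trans Finset.inter_subset_left, t.down S W hS (hW.trans Finset.inter_subset_right)⟩
      rw [Finset.sum_subset h4]
      · apply Finset.sum_congr rfl
        intro W hW
        exact h1 W (Finset.mem_filter.mp hW).2
      · intro W hW hW2
        rw [Finset.mem_filter, Finset.mem_powerset] at hW
        apply moeb_eq_zero h2
        intro h5
        exact hW2 (Finset.mem_powerset.mpr (Finset.subset_inter hW.1 h5))
    rw [sub_add, map_sub, h3, moeb_sum]
    simp only [χ]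
    rw [sub_eq_zero]
    conv_lhs => rw [← hS₀]
    rw [ee_ee, Finset.coe_inter]
    congr 2
    rw [Set.inter_comm (S₀ : Set V), ← Set.inter_assoc, Set.inter_self]

/-! ### The third complex -/

/-- The quotient of the chains of `M`. -/
abbrev ZZ (q : ℕ) : Type := T q M ℚ ⧸ t.DD q

theorem act_DD (q : ℕ) (γ : Γ) {z : T q M ℚ} (hz : z ∈ t.DD q) :
    act t.s.φ (1 : Representation ℚ Γ ℚ) q γ z ∈ t.DD q := by
  rw [mem_DD] at *
  intro S hS
  obtain ⟨S', hS', e⟩ := t.inv γ⁻¹ S hS
  have h1 : t.ee (S : Set V) q (act t.s.φ (1 : Representation ℚ Γ ℚ) q γ z) =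
      act t.s.φ (1 : Representation ℚ Γ ℚ) q γ (t.ee (S' : Set V) q z) := by
    unfold ee act
    rw [mp_mp, mp_mp]
    congr 2
    funext m
    rw [Function.comp_apply, Function.comp_apply, e, t.s.equivariant, smul_inv_smul]
  rw [h1, hz S' hS', map_zero]

/-- The action on the quotient. -/
noncomputable def zetaZ (q : ℕ) : Representation ℚ Γ (t.ZZ q) where
  toFun γ := (t.DD q).mapQ (t.DD q) (act t.s.φ (1 : Representation ℚ Γ ℚ) q γ)
    (fun _ hz => t.act_DD q γ hz)
  map_one' := by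
    apply LinearMap.ext
    intro z
    obtain ⟨z, rfl⟩ := Submodule.mkQ_surjective _ z
    rw [Submodule.mkQ_apply, Submodule.mapQ_apply, Module.End.one_apply]
    congr 1
    unfold act
    rw [map_one, map_one]
    exact mp_id q z
  map_mul' γ δ := by
    apply LinearMap.ext
    intro z
    obtain ⟨z, rfl⟩ := Submodule.mkQ_surjective _ z
    rw [Module.End.mul_apply, Submodule.mkQ_apply, Submodule.mapQ_apply, Submodule.mapQ_apply,
      Submodule.mapQ_apply]
    congr 1
    unfold act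
    rw [mp_mp]
    congr 1
    rw [map_mul]
    rfl

/-- The differential of the quotient. -/
noncomputable def dzZ (q : ℕ) : t.ZZ (q + 1) →ₗ[ℚ] t.ZZ q :=
  (t.DD (q + 1)).mapQ (t.DD q) (dd (trivR M ℚ) q) (fun _ hz => t.dd_DD q hz)

theorem zetaZ_mk (q : ℕ) (γ : Γ) (z : T q M ℚ) : t.zetaZ q γ ((t.DD q).mkQ z) =
    (t.DD q).mkQ (act t.s.φ (1 : Representation ℚ Γ ℚ) q γ z) := rfl

theorem dzZ_mk (q : ℕ) (z : T (q + 1) M ℚ) : t.dzZ q ((t.DD (q + 1)).mkQ z) =
    (t.DD q).mkQ (dd (trivR M ℚ) q z) := rfl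

/-- The map to the third complex. -/
noncomputable def hZ (q : ℕ) : Bq Γ t.s.G q →ₗ[ℚ] t.ZZ q :=
  (t.DD q).mkQ ∘ₗ (bHat t.s.φ (1 : Representation ℚ Γ ℚ) q)

theorem repP_eq {L : Type} [Group L] (φ : Γ →* MulAut L) :
    repP (SemidirectProduct.rightHom : L ⋊[φ] Γ →* Γ) =
      resW φ (indRep (1 : Representation ℚ Γ ℚ)) := by
  apply MonoidHom.ext
  intro w
  apply lhom_ext
  intro v r
  rw [repP_single]
  change _ = indRep (1 : Representation ℚ Γ ℚ) w.right (single v r)
  rw [indRep_single]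
  rfl

theorem bHat_rB {L : Type} [Group L] (φ : Γ →* MulAut L) (q : ℕ) (γ : Γ)
    (z : Bq Γ (L ⋊[φ] Γ) q) : bHat φ (1 : Representation ℚ Γ ℚ) q (rB Γ (L ⋊[φ] Γ) q γ z) =
      act φ (1 : Representation ℚ Γ ℚ) q γ (bHat φ (1 : Representation ℚ Γ ℚ) q z) := by
  have h : (bHat φ (1 : Representation ℚ Γ ℚ) q) ∘ₗ (rB Γ (L ⋊[φ] Γ) q γ) =
      (act φ (1 : Representation ℚ Γ ℚ) q γ) ∘ₗ (bHat φ (1 : Representation ℚ Γ ℚ) q) := by
    apply TI_ext
    intro w v r
    rw [LinearMap.comp_apply, LinearMap.comp_apply, rB_single, bHat_single, bHat_single, act,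
      mp_single]
    congr 1
    funext k
    rw [Function.comp_apply, mul_inv_rev, inv_inv, map_mul φ γ v⁻¹]
    rfl
  exact DFunLike.congr_fun h z

/-- The homomorphism to `Γ`. -/
def p : G →* Γ := SemidirectProduct.rightHom.comp t.π

theorem p_apply (g : G) : t.p g = (t.π g).right := rfl

theorem π_i (n : N) : t.π (t.i n) = SemidirectProduct.inl (t.f n) :=
  SemidirectProduct.ext (t.i_left n) (t.i_right n)

/-- The chains of `N` as chains of `G`. -/
noncomputable def inc0 (q : ℕ) : T q N ℚ →ₗ[ℚ] Bq Γ G q := mp q t.i (lsingle (1 : Γ))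

theorem repP_i (n : N) (r : ℚ) : repP t.p (t.i n) (single 1 r) = single 1 r := by
  rw [repP_single, p_apply, t.i_right, one_mul]

theorem dd_inc0 (q : ℕ) (y : T (q + 1) N ℚ) :
    dd (repP t.p) q (t.inc0 (q + 1) y) = t.inc0 q (dd (trivR N ℚ) q y) :=
  dd_mp (ρ := trivR N ℚ) (τ := repP t.p) t.i (lsingle (1 : Γ)) (fun n r => by
    rw [lsingle_apply, lsingle_apply, repP_i]
    rfl) q y

theorem cyc_inc0 (q : ℕ) (y : T q N ℚ) (hy : Cyc (trivR N ℚ) q y) :
    Cyc (repP t.p) q (t.inc0 q y) := by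
  cases q with
  | zero => exact Cyc.zero _ _
  | succ q =>
    rw [cyc_succ] at *
    rw [dd_inc0, hy, map_zero]

theorem shap (q : ℕ) (b : Bq Γ G q) (hb : Cyc (repP t.p) q b) :
    ∃ y : T q N ℚ, Cyc (trivR N ℚ) q y ∧ b - t.inc0 q y ∈ LinearMap.range (dd (repP t.p) q) :=
  shapiro ((MulAction.toPermHom Γ Γ).comp t.p) 1 (fun γ => by
      obtain ⟨g, hg⟩ := t.surj γ
      refine ⟨g, ?_⟩
      change t.p g * 1 = γ
      rw [mul_one, p_apply, hg]) t.i t.i_inj (fun n => by
      change t.p (t.i n) * 1 = 1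
      rw [mul_one, p_apply, t.i_right]) (fun g hg => by
      apply t.i_ex
      have h1 : t.p g * 1 = 1 := hg
      rw [mul_one, p_apply] at h1
      exact h1) (trivR N ℚ) (fun _ => rfl) q b hb

theorem bHat_inc1 {L : Type} [Group L] (φ : Γ →* MulAut L) (q : ℕ) (y : T q L ℚ) :
    bHat φ (1 : Representation ℚ Γ ℚ) q (inc1 φ q y) = y := by
  have h : (bHat φ (1 : Representation ℚ Γ ℚ) q) ∘ₗ (inc1 φ q) = LinearMap.id := by
    apply T_ext
    intro x r
    rw [LinearMap.comp_apply, inc1, mp_single, lsingle_apply, bHat_single, LinearMap.id_apply]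
    congr 1
    funext k
    have hp : ∀ k : Fin (q + 1), Fin.partialProd
        ((SemidirectProduct.inl : L →* L ⋊[φ] Γ) ∘ x) k =
          SemidirectProduct.inl (Fin.partialProd x k) := by
      intro k
      induction k using Fin.induction with
      | zero => rw [Fin.partialProd_zero, Fin.partialProd_zero, map_one]
      | succ k ih => rw [Fin.partialProd_succ, Fin.partialProd_succ, ih, map_mul]; rfl
    rw [hp, hp, inv_one, map_one, SemidirectProduct.left_inl, SemidirectProduct.left_inl,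
      Fin.partialProd_right_inv]
    rfl
  exact DFunLike.congr_fun h y

theorem cycB_iff {G : Type} [Group G] (p : G →* Γ) (q : ℕ) (b : Bq Γ G q) :
    CycB (Bq Γ G) (fun q => dd (repP p) q) q b ↔ Cyc (repP p) q b := by
  cases q with
  | zero => exact ⟨fun _ => Cyc.zero _ _, fun _ => trivial⟩
  | succ q => exact (cyc_succ _ _ _).symm

theorem dd_bHat' {L : Type} [Group L] (φ : Γ →* MulAut L) (q : ℕ)
    (z : Bq Γ (L ⋊[φ] Γ) (q + 1)) :
    dd (trivR L ℚ) q (bHat φ (1 : Representation ℚ Γ ℚ) (q + 1) z) =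
      bHat φ (1 : Representation ℚ Γ ℚ) q (dd (repP SemidirectProduct.rightHom) q z) := by
  rw [repP_eq]
  exact dd_bHat (1 : Representation ℚ Γ ℚ) q z

theorem bHat_inc0 (q : ℕ) (y : T q N ℚ) :
    bHat t.s.φ (1 : Representation ℚ Γ ℚ) q (FF Γ t.π q (t.inc0 q y)) =
      mp q t.f LinearMap.id y := by
  have h : FF Γ t.π q (t.inc0 q y) = inc1 t.s.φ q (mp q t.f LinearMap.id y) := by
    unfold FF inc0 inc1
    rw [mp_mp, mp_mp]
    congr 2
    funext n
    exact t.π_i n
  rw [h, bHat_inc1]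

/-- The data of the lifting lemma. -/
theorem liftData : LiftData (Bq Γ G) (Bq Γ t.s.G) t.ZZ (rB Γ G)
    (rB Γ t.s.G) t.zetaZ (fun q => dd (repP t.p) q)
    (fun q => dd (repP SemidirectProduct.rightHom) q) t.dzZ (FF Γ t.π) t.hZ where
  hdd q b := dd_dd _ q b
  hdd' q b := dd_dd _ q b
  hddz q b := by
    obtain ⟨z, rfl⟩ := Submodule.mkQ_surjective _ b
    rw [Submodule.mkQ_apply, dzZ, dzZ, Submodule.mapQ_apply, Submodule.mapQ_apply, dd_dd,
      Submodule.Quotient.mk_zero]
  hF q b := dd_FF _ _ _ (fun _ => rfl) q b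
  hh q b := by
    rw [hZ, hZ, LinearMap.comp_apply, LinearMap.comp_apply, ← dd_bHat', Submodule.mkQ_apply,
      Submodule.mkQ_apply, dzZ, Submodule.mapQ_apply]
  hd q g b := dd_rB' _ q g b
  hd' q g b := dd_rB' _ q g b
  hdz q g b := by
    obtain ⟨z, rfl⟩ := Submodule.mkQ_surjective _ b
    rw [zetaZ_mk, dzZ_mk, dzZ_mk, zetaZ_mk, dd_act]
  hFe q g b := FF_rB _ q g b
  hhe q g b := by
    rw [hZ, LinearMap.comp_apply, LinearMap.comp_apply, bHat_rB, zetaZ_mk]
  hav q := avg_rB q
  hav' q := avg_rB q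
  surj q z hz := by
    obtain ⟨z, rfl⟩ := Submodule.mkQ_surjective _ z
    obtain ⟨y, w, hy, hyz⟩ := t.lift_cycle q z (by
      intro S hS
      cases q with
      | zero => exact Cyc.zero _ _
      | succ q =>
        rw [cyc_succ, dd_ee]
        have h1 : t.dzZ q ((t.DD (q + 1)).mkQ z) = 0 := hz
        rw [Submodule.mkQ_apply, dzZ, Submodule.mapQ_apply, Submodule.Quotient.mk_eq_zero,
          mem_DD] at h1
        exact h1 S hS)
    refine ⟨t.inc0 q y, ?_, (t.DD (q + 1)).mkQ (-w), ?_⟩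
    · rw [cycB_iff]
      exact t.cyc_inc0 q y hy
    · rw [hZ, LinearMap.comp_apply, bHat_inc0, ← map_sub, dzZ_mk, eq_comm, ← sub_eq_zero, ← map_sub,
        Submodule.mkQ_apply, Submodule.Quotient.mk_eq_zero, map_neg, sub_neg_eq_add]
      exact hyz
  inj q b hb hr := by
    rw [cycB_iff] at hb
    obtain ⟨y, hyc, v, hv⟩ := t.shap q b hb
    obtain ⟨w, hw⟩ := hr
    obtain ⟨w, rfl⟩ := Submodule.mkQ_surjective _ w
    -- replace `b` by the chain of `N`
    have hb' : b = t.inc0 q y + dd (repP t.p) q v := by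
      rw [hv]; abel
    obtain ⟨w', hw'⟩ : ∃ w' : T (q + 1) M ℚ,
        (t.DD q).mkQ (dd (trivR M ℚ) q w') = (t.DD q).mkQ (mp q t.f LinearMap.id y) := by
      refine ⟨w - bHat t.s.φ (1 : Representation ℚ Γ ℚ) (q + 1) (FF Γ t.π (q + 1) v), ?_⟩
      rw [map_sub, map_sub, ← dzZ_mk, hw, hb', map_add, map_add, hZ, LinearMap.comp_apply,
        bHat_inc0, LinearMap.comp_apply, dd_bHat']
      rw [dd_FF t.p SemidirectProduct.rightHom t.π (fun _ => rfl) q v, add_sub_cancel_right]
    rw [Submodule.mkQ_apply, Submodule.mkQ_apply, eq_comm, Submodule.Quotient.eq, mem_DD] at hw'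
    obtain ⟨x, hx⟩ := exists_class (A := Rep.trivial ℚ N ℚ) q y hyc
    have hx0 : x = 0 := by
      apply t.det q
      intro S hS
      refine ((hx.hq ((t.s.e (S : Set V)).comp t.f)).eq_zero_iff).mpr ?_
      refine ⟨mp (q + 1) (t.s.e (S : Set V)) LinearMap.id w', ?_⟩
      have h1 := hw' S hS
      rw [ee, map_sub, mp_mp, LinearMap.id_comp, sub_eq_zero] at h1
      have h2 : dd (tQ M) q (mp (q + 1) (t.s.e (S : Set V)) LinearMap.id w') =
          mp q (t.s.e (S : Set V)) LinearMap.id (dd (trivR M ℚ) q w') :=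
        dd_mp (ρ := trivR M ℚ) (τ := tQ M) (t.s.e (S : Set V)) LinearMap.id (fun _ _ => rfl) q w'
      exact h2.trans h1.symm
    rw [hx0] at hx
    obtain ⟨u, hu⟩ := hx.eq_zero_iff.mp rfl
    refine ⟨v + t.inc0 (q + 1) u, ?_⟩
    have h4 : dd (repP t.p) q (t.inc0 (q + 1) u) = t.inc0 q y := by
      rw [dd_inc0]
      congr 1
    rw [map_add, h4, hb', add_comm]

/-- **Twisted extensions.** -/
theorem inj (j : ℕ) (x : HQ j G) (hx : hqMap t.π j x = 0) : x = 0 := by
  cases j with
  | zero => exact inj_zero t.π x hx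
  | succ m => exact inj_of_lift _ _ t.π t.liftData m x hx

end Twist

end Pool.Agent.T6.H34.TW
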