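import Pool.Agent.T6.H34.TW.Shp
import Pool.Agent.T6.H34.TW.Tw

/-!
An extension `G` of `Γ` by `N`, and a homomorphism `φ : G → M` whose restriction to `N` is injective on
rational homology: `H_j(G; ℚ) → H_j(M × Γ; ℚ)` is injective.
-/

set_option autoImplicit false

namespace Pool.Agent.T6.H34.TW

open Finsupp Pool.Agent.Y483

section Complement

variable {K A : Type} [AddCommGroup A] [Module ℚ A]

/-- A complement inside a larger submodule. -/
theorem exists_compl {I L : Submodule ℚ A} (h : I ≤ L) :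
    ∃ W : Submodule ℚ A, W ≤ L ∧ W ⊓ I = ⊥ ∧ L ≤ I ⊔ W := by
  obtain ⟨C, hC⟩ := Submodule.exists_isCompl I
  refine ⟨C ⊓ L, inf_le_right, ?_, ?_⟩
  · rw [eq_bot_iff, ← hC.inf_eq_bot]
    exact fun x hx => ⟨hx.2, hx.1.1⟩
  · intro x hx
    have hx' : x ∈ I ⊔ C := by rw [hC.sup_eq_top]; trivial
    obtain ⟨a, ha, c, hc, rfl⟩ := Submodule.mem_sup.mp hx'
    refine Submodule.add_mem_sup ha ⟨hc, ?_⟩
    have := L.sub_mem hx (h ha)
    rwa [add_sub_cancel_left] at this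

end Complement

section

variable {G Γ N M : Type} [Group G] [Group Γ] [Group N] [Group M]

/-- The images of the cycles of `N`, and the boundaries. -/
noncomputable def imB (f : N →* M) (q : ℕ) : Submodule ℚ (T q M ℚ) :=
  (cycSub (trivR N ℚ) q).map (mp q f LinearMap.id) ⊔ LinearMap.range (dd (trivR M ℚ) q)

theorem dd_mem_imB (f : N →* M) (q : ℕ) (w : T (q + 1) M ℚ) : dd (trivR M ℚ) q w ∈ imB f q :=
  Submodule.mem_sup_right ⟨w, rfl⟩

theorem mp_mem_imB (f : N →* M) (q : ℕ) {y : T q N ℚ} (hy : Cyc (trivR N ℚ) q y) :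
    mp q f LinearMap.id y ∈ imB f q :=
  Submodule.mem_sup_left ⟨y, hy, rfl⟩

theorem imB_le (f : N →* M) (q : ℕ) : imB f q ≤ cycSub (trivR M ℚ) q := by
  unfold imB
  rw [sup_le_iff]
  refine ⟨?_, ?_⟩
  · rintro _ ⟨y, hy, rfl⟩
    exact cyc_mp (ρ := trivR N ℚ) (τ := trivR M ℚ) f LinearMap.id (fun _ _ => rfl) q y hy
  · rintro _ ⟨y, rfl⟩
    exact cyc_dd _ q y

/-- Cycles which represent a complement of the image of the homology of `N`. -/
noncomputable def cmpl (f : N →* M) (q : ℕ) : Submodule ℚ (T q M ℚ) :=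
  (exists_compl (imB_le f q)).choose

theorem cmpl_le (f : N →* M) (q : ℕ) : cmpl f q ≤ cycSub (trivR M ℚ) q :=
  (exists_compl (imB_le f q)).choose_spec.1

theorem cmpl_inf (f : N →* M) (q : ℕ) : cmpl f q ⊓ imB f q = ⊥ :=
  (exists_compl (imB_le f q)).choose_spec.2.1

theorem le_cmpl (f : N →* M) (q : ℕ) : cycSub (trivR M ℚ) q ≤ imB f q ⊔ cmpl f q :=
  (exists_compl (imB_le f q)).choose_spec.2.2

theorem dd_cmpl (f : N →* M) (q : ℕ) {z : T (q + 1) M ℚ} (hz : z ∈ cmpl f (q + 1)) :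
    dd (trivR M ℚ) q z = 0 := by
  have h1 := cmpl_le f (q + 1) hz
  rw [mem_cycSub, cyc_succ] at h1
  exact h1

/-- The differential of the quotient. -/
noncomputable def dzL (f : N →* M) (q : ℕ) :
    (T (q + 1) M ℚ ⧸ cmpl f (q + 1)) →ₗ[ℚ] (T q M ℚ ⧸ cmpl f q) :=
  (cmpl f (q + 1)).mapQ (cmpl f q) (dd (trivR M ℚ) q) (fun z hz => by
    rw [Submodule.mem_comap, dd_cmpl f q hz]
    exact Submodule.zero_mem _)

theorem dzL_mk (f : N →* M) (q : ℕ) (z : T (q + 1) M ℚ) : dzL f q ((cmpl f (q + 1)).mkQ z) =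
    (cmpl f q).mkQ (dd (trivR M ℚ) q z) := rfl

/-- The projection to the chains of `M`. -/
noncomputable def pr (Γ M : Type) [Group Γ] [Group M] (q : ℕ) :
    Bq Γ (M × Γ) q →ₗ[ℚ] T q M ℚ := mp q (MonoidHom.fst M Γ) (sumC Γ)

theorem dd_pr (q : ℕ) (b : Bq Γ (M × Γ) (q + 1)) : dd (trivR M ℚ) q (pr Γ M (q + 1) b) =
    pr Γ M q (dd (repP (MonoidHom.snd M Γ)) q b) :=
  dd_mp (ρ := repP (MonoidHom.snd M Γ)) (τ := trivR M ℚ) (MonoidHom.fst M Γ) (sumC Γ)
    (fun g m => sumC_permRep _ g m) q b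

theorem pr_rB (q : ℕ) (γ : Γ) (b : Bq Γ (M × Γ) q) :
    pr Γ M q (rB Γ (M × Γ) q γ b) = pr Γ M q b := by
  have h : (pr Γ M q) ∘ₗ (rB Γ (M × Γ) q γ) = pr Γ M q := by
    apply TI_ext
    intro x v r
    rw [LinearMap.comp_apply, rB_single, pr, mp_single, mp_single, sumC_single, sumC_single]
  exact DFunLike.congr_fun h b

theorem lh_data (i : N →* G) (p : G →* Γ) (φ : G →* M) (hi : Function.Injective i)
    (h1 : ∀ n, p (i n) = 1) (hex : ∀ g, p g = 1 → ∃ n, i n = g) (hs : Function.Surjective p)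
    (hinj : ∀ (q : ℕ) (x : HQ q N), hqMap (φ.comp i) q x = 0 → x = 0) :
    LiftData (Bq Γ G) (Bq Γ (M × Γ)) (fun q => T q M ℚ ⧸ cmpl (φ.comp i) q) (rB Γ G)
      (rB Γ (M × Γ)) (fun _ => 1) (fun q => dd (repP p) q)
      (fun q => dd (repP (MonoidHom.snd M Γ)) q) (dzL (φ.comp i)) (FF Γ (φ.prod p))
      (fun q => (cmpl (φ.comp i) q).mkQ ∘ₗ (pr Γ M q)) := by
  have hpr : ∀ (q : ℕ) (y : T q N ℚ), pr Γ M q (FF Γ (φ.prod p) q (incK Γ i q y)) =
      mp q (φ.comp i) LinearMap.id y := by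
    intro q y
    unfold pr FF incK
    rw [mp_mp, mp_mp]
    have e : (sumC Γ ∘ₗ LinearMap.id) ∘ₗ (lsingle (1 : Γ) : ℚ →ₗ[ℚ] (Γ →₀ ℚ)) = LinearMap.id := by
      apply LinearMap.ext
      intro r
      rw [LinearMap.comp_apply, LinearMap.comp_apply, lsingle_apply, LinearMap.id_apply,
        sumC_single]
      rfl
    rw [e]
    rfl
  refine
    { hdd := fun q b => dd_dd _ q b
      hdd' := fun q b => dd_dd _ q b
      hddz := ?_
      hF := fun q b => dd_FF _ _ _ (fun _ => rfl) q b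
      hh := ?_
      hd := fun q g b => dd_rB' _ q g b
      hd' := fun q g b => dd_rB' _ q g b
      hdz := fun q g b => rfl
      hFe := fun q g b => FF_rB _ q g b
      hhe := ?_
      hav := fun q => avg_rB q
      hav' := fun q => avg_rB q
      surj := ?_
      inj := ?_ }
  · intro q b
    obtain ⟨z, rfl⟩ := Submodule.mkQ_surjective _ b
    rw [dzL_mk, dzL_mk, dd_dd, map_zero]
  · intro q b
    rw [LinearMap.comp_apply, LinearMap.comp_apply, dzL_mk, dd_pr]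
  · intro q g b
    rw [LinearMap.comp_apply, LinearMap.comp_apply, pr_rB]
    rfl
  · intro q z hz
    obtain ⟨z, rfl⟩ := Submodule.mkQ_surjective _ z
    have hzc : z ∈ cycSub (trivR M ℚ) q := by
      rw [mem_cycSub]
      cases q with
      | zero => exact Cyc.zero _ _
      | succ q =>
        rw [cyc_succ]
        have h2 : dzL (φ.comp i) q ((cmpl (φ.comp i) (q + 1)).mkQ z) = 0 := hz
        rw [dzL_mk, Submodule.mkQ_apply, Submodule.Quotient.mk_eq_zero] at h2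
        have h3 : dd (trivR M ℚ) q z ∈ cmpl (φ.comp i) q ⊓ imB (φ.comp i) q :=
          ⟨h2, dd_mem_imB _ _ _⟩
        rw [cmpl_inf] at h3
        exact h3
    obtain ⟨a, ha, c, hc, hac⟩ := Submodule.mem_sup.mp (le_cmpl (φ.comp i) q hzc)
    obtain ⟨a, ⟨y, hy, rfl⟩, _, ⟨w, rfl⟩, rfl⟩ := Submodule.mem_sup.mp ha
    refine ⟨incK Γ i q y, ?_, (cmpl (φ.comp i) (q + 1)).mkQ w, ?_⟩
    · exact (Twist.cycB_iff p q _).mpr (cyc_incK h1 q y hy)
    · rw [LinearMap.comp_apply, hpr, ← map_sub, dzL_mk, eq_comm, ← sub_eq_zero, ← map_sub,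
        Submodule.mkQ_apply, Submodule.Quotient.mk_eq_zero, ← hac]
      have : mp q (φ.comp i) LinearMap.id y + dd (trivR M ℚ) q w + c -
          mp q (φ.comp i) LinearMap.id y - dd (trivR M ℚ) q w = c := by abel
      rw [this]
      exact hc
  · intro q b hb hr
    have hb' := (Twist.cycB_iff p q _).mp hb
    obtain ⟨y, hyc, v, hv⟩ := shap_surj h1 hs hi hex q b hb'
    obtain ⟨w, hw⟩ := hr
    obtain ⟨w, rfl⟩ := Submodule.mkQ_surjective _ w
    have hbe : b = incK Γ i q y + dd (repP p) q v := by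
      rw [hv]; abel
    obtain ⟨w', hw'⟩ : ∃ w' : T (q + 1) M ℚ, (cmpl (φ.comp i) q).mkQ (dd (trivR M ℚ) q w') =
        (cmpl (φ.comp i) q).mkQ (mp q (φ.comp i) LinearMap.id y) := by
      refine ⟨w - pr Γ M (q + 1) (FF Γ (φ.prod p) (q + 1) v), ?_⟩
      rw [map_sub, map_sub, ← dzL_mk, hw, hbe, map_add, map_add, LinearMap.comp_apply, hpr,
        LinearMap.comp_apply, dd_pr, dd_FF p (MonoidHom.snd M Γ) (φ.prod p) (fun _ => rfl) q v,
        add_sub_cancel_right]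
    rw [Submodule.mkQ_apply, Submodule.mkQ_apply, Submodule.Quotient.eq] at hw'
    have h3 : dd (trivR M ℚ) q w' - mp q (φ.comp i) LinearMap.id y ∈
        cmpl (φ.comp i) q ⊓ imB (φ.comp i) q := by
      exact ⟨hw', Submodule.sub_mem _ (dd_mem_imB _ _ _) (mp_mem_imB _ _ hyc)⟩
    rw [cmpl_inf, Submodule.mem_bot, sub_eq_zero] at h3
    obtain ⟨x, hx⟩ := exists_class (A := Rep.trivial ℚ N ℚ) q y hyc
    have hx0 : x = 0 := by
      apply hinj q x
      exact ((hx.hq (φ.comp i)).eq_zero_iff).mpr ⟨w', h3⟩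
    rw [hx0] at hx
    obtain ⟨u, hu⟩ := hx.eq_zero_iff.mp rfl
    refine ⟨v + incK Γ i (q + 1) u, ?_⟩
    have h4 : dd (repP p) q (incK Γ i (q + 1) u) = incK Γ i q y := by
      rw [dd_incK h1]
      congr 1
    rw [map_add, h4, hbe, add_comm]

/-- An extension `G` of `Γ` by `N`, and a homomorphism `φ : G → M` whose restriction to `N` is
injective on rational homology. -/
theorem lh_inj (i : N →* G) (p : G →* Γ) (φ : G →* M) (hi : Function.Injective i)
    (h1 : ∀ n, p (i n) = 1) (hex : ∀ g, p g = 1 → ∃ n, i n = g) (hs : Function.Surjective p)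
    (hinj : ∀ (q : ℕ) (x : HQ q N), hqMap (φ.comp i) q x = 0 → x = 0) (j : ℕ) (x : HQ j G)
    (hx : hqMap (φ.prod p) j x = 0) : x = 0 := by
  cases j with
  | zero => exact inj_zero _ x hx
  | succ m => exact inj_of_lift _ _ _ (lh_data i p φ hi h1 hex hs hinj) m x hx

end

end Pool.Agent.T6.H34.TW
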