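import Pool.Agent.Y483.Contract

/-!
Equivariant lifting through quasi-isomorphisms: let `F : B → B'` be an equivariant chain map of
complexes of relatively projective modules and `h : B' → Z` an equivariant chain map to an arbitrary
complex such that `h F` is bijective on homology.  Then `F` is injective on the homology of the
coinvariants.
-/

set_option autoImplicit false

namespace Pool.Agent.T6.H34.TW

open Finsupp Pool.Agent.Y483

/-- Sequences with prescribed relations between neighbouring terms. -/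
theorem exists_chain {X : ℕ → Type} (P : ∀ n, X n → Prop) (R : ∀ n, X n → X (n + 1) → Prop)
    (h0 : ∃ x, P 0 x) (hs : ∀ n x, P n x → ∃ y, P (n + 1) y ∧ R n x y) :
    ∃ x : ∀ n, X n, (∀ n, P n (x n)) ∧ ∀ n, R n (x n) (x (n + 1)) := by
  classical
  let Y : ∀ n : ℕ, {x : X n // P n x} := fun n => Nat.rec (motive := fun n => {x : X n // P n x})
    ⟨h0.choose, h0.choose_spec⟩
    (fun n y => ⟨(hs n y.1 y.2).choose, (hs n y.1 y.2).choose_spec.1⟩) n
  exact ⟨fun n => (Y n).1, fun n => (Y n).2, fun n => (hs n (Y n).1 (Y n).2).choose_spec.2⟩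

section

variable {Γ : Type} [Group Γ] (B B' Z : ℕ → Type) [∀ q, AddCommGroup (B q)] [∀ q, Module ℚ (B q)]
  [∀ q, AddCommGroup (B' q)] [∀ q, Module ℚ (B' q)] [∀ q, AddCommGroup (Z q)]
  [∀ q, Module ℚ (Z q)] (ρ : ∀ q, Representation ℚ Γ (B q))
  (ρ' : ∀ q, Representation ℚ Γ (B' q)) (ζ : ∀ q, Representation ℚ Γ (Z q))
  (d : ∀ q, B (q + 1) →ₗ[ℚ] B q) (d' : ∀ q, B' (q + 1) →ₗ[ℚ] B' q)
  (dz : ∀ q, Z (q + 1) →ₗ[ℚ] Z q) (F : ∀ q, B q →ₗ[ℚ] B' q) (h : ∀ q, B' q →ₗ[ℚ] Z q)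

/-- Cycles of `B`. -/
def CycB : ∀ q, B q → Prop
  | 0, _ => True
  | q + 1, b => d q b = 0

/-- The hypotheses of the lifting lemma. -/
structure LiftData : Prop where
  hdd : ∀ q b, d q (d (q + 1) b) = 0
  hdd' : ∀ q b, d' q (d' (q + 1) b) = 0
  hddz : ∀ q b, dz q (dz (q + 1) b) = 0
  hF : ∀ q b, d' q (F (q + 1) b) = F q (d q b)
  hh : ∀ q b, dz q (h (q + 1) b) = h q (d' q b)
  hd : ∀ q g b, d q (ρ (q + 1) g b) = ρ q g (d q b)
  hd' : ∀ q g b, d' q (ρ' (q + 1) g b) = ρ' q g (d' q b)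
  hdz : ∀ q g b, dz q (ζ (q + 1) g b) = ζ q g (dz q b)
  hFe : ∀ q g b, F q (ρ q g b) = ρ' q g (F q b)
  hhe : ∀ q g b, h q (ρ' q g b) = ζ q g (h q b)
  hav : ∀ q, IsAvg (ρ q)
  hav' : ∀ q, IsAvg (ρ' q)
  surj : ∀ q (z : Z q), CycB Z dz q z → ∃ b, CycB B d q b ∧
    z - h q (F q b) ∈ LinearMap.range (dz q)
  inj : ∀ q b, CycB B d q b → h q (F q b) ∈ LinearMap.range (dz q) → b ∈ LinearMap.range (d q)

end

section

variable {Γ : Type} [Group Γ] {B B' Z : ℕ → Type} [∀ q, AddCommGroup (B q)] [∀ q, Module ℚ (B q)]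
  [∀ q, AddCommGroup (B' q)] [∀ q, Module ℚ (B' q)] [∀ q, AddCommGroup (Z q)]
  [∀ q, Module ℚ (Z q)] {ρ : ∀ q, Representation ℚ Γ (B q)}
  {ρ' : ∀ q, Representation ℚ Γ (B' q)} {ζ : ∀ q, Representation ℚ Γ (Z q)}
  {d : ∀ q, B (q + 1) →ₗ[ℚ] B q} {d' : ∀ q, B' (q + 1) →ₗ[ℚ] B' q}
  {dz : ∀ q, Z (q + 1) →ₗ[ℚ] Z q} {F : ∀ q, B q →ₗ[ℚ] B' q} {h : ∀ q, B' q →ₗ[ℚ] Z q}

/-- Exactness of the cone of `h F`. -/
theorem LiftData.hex (D : LiftData B B' Z ρ ρ' ζ d d' dz F h) (q : ℕ) (a : Z (q + 1)) (b : B q)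
    (hb : CycB B d q b) (he : dz q a + h q (F q b) = 0) :
    (a, b) ∈ LinearMap.range (coneD B Z d dz (fun q => h q ∘ₗ F q) q) := by
  obtain ⟨b₂, hb₂⟩ := D.inj q b hb ⟨-a, by
    rw [map_neg]; exact neg_eq_of_add_eq_zero_right he⟩
  have h1 : CycB Z dz (q + 1) (a + h (q + 1) (F (q + 1) b₂)) := by
    change dz q _ = 0
    rw [map_add, D.hh, D.hF, hb₂, he]
  obtain ⟨b₃, hb₃, c, hc⟩ := D.surj (q + 1) _ h1
  have hb₃' : d q b₃ = 0 := hb₃
  refine ⟨(c, b₃ - b₂), ?_⟩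
  rw [coneD_apply]
  simp only [LinearMap.comp_apply]
  rw [hc, map_sub, map_sub, map_sub, hb₃', hb₂]
  ext
  · simp only
    abel
  · simp

theorem LiftData.hce (D : LiftData B B' Z ρ ρ' ζ d d' dz F h) (q : ℕ) (g : Γ)
    (x : Z (q + 2) × B (q + 1)) :
    coneD B Z d dz (fun q => h q ∘ₗ F q) q (prodRep (ζ (q + 2)) (ρ (q + 1)) g x) =
      prodRep (ζ (q + 1)) (ρ q) g (coneD B Z d dz (fun q => h q ∘ₗ F q) q x) := by
  rw [coneD_apply, coneD_apply, prodRep_apply, prodRep_apply]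
  simp only [LinearMap.comp_apply]
  rw [D.hdz, D.hFe, D.hhe, D.hd, map_add, map_neg]

theorem LiftData.cyc_d (D : LiftData B B' Z ρ ρ' ζ d d' dz F h) (q : ℕ) (b : B (q + 1)) :
    CycB B d q (d q b) := by
  cases q with
  | zero => trivial
  | succ q => exact D.hdd q b

/-- The null-homotopy of `B' → Z → cone (h F)`. -/
theorem LiftData.exists_T (D : LiftData B B' Z ρ ρ' ζ d d' dz F h) :
    ∃ T : ∀ q, B' q →ₗ[ℚ] (Z (q + 1) × B q),
      (∀ q, (∀ g y, T q (ρ' q g y) = prodRep (ζ (q + 1)) (ρ q) g (T q y)) ∧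
        (∀ y, CycB B' d' q y → CycB B d q (T q y).2) ∧
        ∀ y, CycB B' d' q y → dz q (T q y).1 + h q (F q (T q y).2) = h q y) ∧
      ∀ q y, coneD B Z d dz (fun q => h q ∘ₗ F q) q (T (q + 1) y) =
        ((h (q + 1) y, 0) : Z (q + 1) × B q) - T q (d' q y) := by
  apply exists_chain (X := fun q => B' q →ₗ[ℚ] (Z (q + 1) × B q))
    (P := fun q T => (∀ g y, T (ρ' q g y) = prodRep (ζ (q + 1)) (ρ q) g (T y)) ∧
        (∀ y, CycB B' d' q y → CycB B d q (T y).2) ∧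
        ∀ y, CycB B' d' q y → dz q (T y).1 + h q (F q (T y).2) = h q y)
    (R := fun q T T' => ∀ y, coneD B Z d dz (fun q => h q ∘ₗ F q) q (T' y) =
        ((h (q + 1) y, 0) : Z (q + 1) × B q) - T (d' q y))
  · let k₀ : (Z 1 × B 0) →ₗ[ℚ] Z 0 :=
      (dz 0) ∘ₗ (LinearMap.fst ℚ _ _) + (h 0) ∘ₗ (F 0) ∘ₗ (LinearMap.snd ℚ _ _)
    have hk₀ : ∀ x, k₀ x = dz 0 x.1 + h 0 (F 0 x.2) := fun _ => rfl
    obtain ⟨L, hL1, hL2⟩ := (D.hav' 0).lift (τ := prodRep (ζ 1) (ρ 0)) (υ := ζ 0) k₀ (by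
        intro g c
        rw [hk₀, hk₀, prodRep_apply]
        simp only
        rw [D.hdz, D.hFe, D.hhe, map_add]) (h 0) (fun g c => D.hhe 0 g c) (by
        intro c
        obtain ⟨b, -, a, ha⟩ := D.surj 0 (h 0 c) trivial
        refine ⟨(a, b), ?_⟩
        rw [hk₀, ha]
        simp)
    exact ⟨L, hL1, fun _ _ => trivial, fun y _ => by rw [← hk₀, hL2]⟩
  · rintro q T ⟨hT1, hT2, hT3⟩
    let u : B' (q + 1) →ₗ[ℚ] (Z (q + 1) × B q) :=
      (LinearMap.inl ℚ (Z (q + 1)) (B q)) ∘ₗ (h (q + 1)) - T ∘ₗ (d' q)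
    have hu : ∀ y, u y = ((h (q + 1) y, 0) : Z (q + 1) × B q) - T (d' q y) := fun _ => rfl
    have hcyc' : ∀ y, CycB B' d' q (d' q y) := by
      intro y
      cases q with
      | zero => trivial
      | succ q => exact D.hdd' q y
    obtain ⟨L, hL1, hL2⟩ := (D.hav' (q + 1)).lift (τ := prodRep (ζ (q + 2)) (ρ (q + 1)))
      (υ := prodRep (ζ (q + 1)) (ρ q)) (coneD B Z d dz (fun q => h q ∘ₗ F q) q)
      (fun g c => D.hce q g c) u (by
        intro g c
        rw [hu, hu, D.hhe, D.hd', hT1, map_sub, prodRep_apply, prodRep_apply]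
        simp) (by
        intro c
        have h1 := hT2 _ (hcyc' c)
        have h2 := hT3 _ (hcyc' c)
        have h3 : u c = (h (q + 1) c - (T (d' q c)).1, -(T (d' q c)).2) := by
          rw [hu]
          ext
          · simp
          · simp
        rw [h3]
        apply D.hex
        · cases q with
          | zero => trivial
          | succ q =>
            change d q (-(T (d' (q + 1) c)).2) = 0
            rw [map_neg, neg_eq_zero]
            exact h1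
        · rw [map_sub, map_neg, map_neg, D.hh]
          rw [← h2]
          abel)
    refine ⟨L, ⟨hL1, ?_, ?_⟩, fun y => by rw [hL2, hu]⟩
    · intro y hy
      have hy' : d' q y = 0 := hy
      have h1 := congrArg Prod.snd (hL2 y)
      rw [hu, hy', map_zero, coneD_apply] at h1
      simp only [sub_zero] at h1
      exact neg_eq_zero.mp h1
    · intro y hy
      have hy' : d' q y = 0 := hy
      have h1 := congrArg Prod.fst (hL2 y)
      rw [hu, hy', map_zero, coneD_apply] at h1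
      simp only [sub_zero] at h1
      exact h1

/-- The homotopy between `g F` and the identity. -/
theorem LiftData.exists_S (D : LiftData B B' Z ρ ρ' ζ d d' dz F h)
    (T : ∀ q, B' q →ₗ[ℚ] (Z (q + 1) × B q))
    (hT : ∀ q, (∀ g y, T q (ρ' q g y) = prodRep (ζ (q + 1)) (ρ q) g (T q y)) ∧
        (∀ y, CycB B' d' q y → CycB B d q (T q y).2) ∧
        ∀ y, CycB B' d' q y → dz q (T q y).1 + h q (F q (T q y).2) = h q y)
    (hT' : ∀ q y, coneD B Z d dz (fun q => h q ∘ₗ F q) q (T (q + 1) y) =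
        ((h (q + 1) y, 0) : Z (q + 1) × B q) - T q (d' q y)) :
    ∃ S : ∀ q, B q →ₗ[ℚ] (Z (q + 2) × B (q + 1)),
      (∀ q, (∀ g y, S q (ρ q g y) = prodRep (ζ (q + 2)) (ρ (q + 1)) g (S q y)) ∧
        ∀ y, CycB B d q y → coneD B Z d dz (fun q => h q ∘ₗ F q) q (S q y) =
          T q (F q y) - ((0, y) : Z (q + 1) × B q)) ∧
      ∀ q y, coneD B Z d dz (fun q => h q ∘ₗ F q) (q + 1) (S (q + 1) y) =
        T (q + 1) (F (q + 1) y) - ((0, y) : Z (q + 2) × B (q + 1)) + S q (d q y) := by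
  have hc : ∀ q y, coneD B Z d dz (fun q => h q ∘ₗ F q) q
      (T (q + 1) (F (q + 1) y) - ((0, y) : Z (q + 2) × B (q + 1))) =
      -(T q (F q (d q y)) - ((0, d q y) : Z (q + 1) × B q)) := by
    intro q y
    rw [map_sub, hT', D.hF, coneD_apply]
    ext
    · simp
    · simp
      abel
  apply exists_chain (X := fun q => B q →ₗ[ℚ] (Z (q + 2) × B (q + 1)))
    (P := fun q S => (∀ g y, S (ρ q g y) = prodRep (ζ (q + 2)) (ρ (q + 1)) g (S y)) ∧
        ∀ y, CycB B d q y → coneD B Z d dz (fun q => h q ∘ₗ F q) q (S y) =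
          T q (F q y) - ((0, y) : Z (q + 1) × B q))
    (R := fun q S S' => ∀ y, coneD B Z d dz (fun q => h q ∘ₗ F q) (q + 1) (S' y) =
        T (q + 1) (F (q + 1) y) - ((0, y) : Z (q + 2) × B (q + 1)) + S (d q y))
  · let u : B 0 →ₗ[ℚ] (Z 1 × B 0) := T 0 ∘ₗ F 0 - LinearMap.inr ℚ (Z 1) (B 0)
    have hu : ∀ y, u y = T 0 (F 0 y) - ((0, y) : Z 1 × B 0) := fun _ => rfl
    obtain ⟨L, hL1, hL2⟩ := (D.hav 0).lift (τ := prodRep (ζ 2) (ρ 1))
      (υ := prodRep (ζ 1) (ρ 0)) (coneD B Z d dz (fun q => h q ∘ₗ F q) 0)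
      (fun g c => D.hce 0 g c) u (by
        intro g c
        rw [hu, hu, D.hFe, (hT 0).1, map_sub]
        congr 1
        rw [prodRep_apply, map_zero]) (by
        intro c
        have h1 : u c = ((T 0 (F 0 c)).1, (T 0 (F 0 c)).2 - c) := by
          rw [hu]
          ext
          · simp
          · simp
        rw [h1]
        apply D.hex 0 _ _ trivial
        rw [map_sub, map_sub, ← add_sub_assoc, (hT 0).2.2 _ trivial, sub_self])
    exact ⟨L, hL1, fun y _ => by rw [hL2, hu]⟩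
  · rintro q S ⟨hS1, hS2⟩
    let u : B (q + 1) →ₗ[ℚ] (Z (q + 2) × B (q + 1)) :=
      T (q + 1) ∘ₗ F (q + 1) - LinearMap.inr ℚ (Z (q + 2)) (B (q + 1)) + S ∘ₗ d q
    have hu : ∀ y, u y = T (q + 1) (F (q + 1) y) - ((0, y) : Z (q + 2) × B (q + 1)) +
        S (d q y) := fun _ => rfl
    obtain ⟨L, hL1, hL2⟩ := (D.hav (q + 1)).lift (τ := prodRep (ζ (q + 3)) (ρ (q + 2)))
      (υ := prodRep (ζ (q + 2)) (ρ (q + 1))) (coneD B Z d dz (fun q => h q ∘ₗ F q) (q + 1))
      (fun g c => D.hce (q + 1) g c) u (by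
        intro g c
        rw [hu, hu, D.hFe, (hT (q + 1)).1, D.hd, hS1, map_add, map_sub]
        congr 2
        rw [prodRep_apply, map_zero]) (by
        intro c
        have h0 : coneD B Z d dz (fun q => h q ∘ₗ F q) q (u c) = 0 := by
          rw [hu, map_add, hc, hS2 _ (D.cyc_d q c), neg_add_cancel]
        rw [coneD_apply, Prod.mk_eq_zero] at h0
        have h1 := D.hex (q + 1) (u c).1 (u c).2 (neg_eq_zero.mp h0.2) h0.1
        exact h1)
    refine ⟨L, ⟨hL1, ?_⟩, fun y => by rw [hL2, hu]⟩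
    intro y hy
    have hy' : d q y = 0 := hy
    rw [hL2, hu, hy', map_zero, add_zero]

/-- **The lifting lemma.** -/
theorem LiftData.main (D : LiftData B B' Z ρ ρ' ζ d d' dz F h) (m : ℕ) (x : B (m + 1))
    (hx : d m x ∈ augS (ρ m)) (w : B' (m + 2))
    (hFx : F (m + 1) x - d' (m + 1) w ∈ augS (ρ' (m + 1))) :
    ∃ u, x - d (m + 1) u ∈ augS (ρ (m + 1)) := by
  obtain ⟨T, hT, hT'⟩ := D.exists_T
  obtain ⟨S, hS, hS'⟩ := D.exists_S T hT hT'
  -- the second components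
  have hg : ∀ q y, d q (T (q + 1) y).2 = (T q (d' q y)).2 := by
    intro q y
    have h1 := congrArg Prod.snd (hT' q y)
    rw [coneD_apply] at h1
    simp only [Prod.snd_sub, zero_sub, neg_inj] at h1
    exact h1
  have hs : x = (T (m + 1) (F (m + 1) x)).2 + d (m + 1) (S (m + 1) x).2 + (S m (d m x)).2 := by
    have h1 := congrArg Prod.snd (hS' m x)
    rw [coneD_apply] at h1
    simp only [Prod.snd_add, Prod.snd_sub] at h1
    have h2 : x = (T (m + 1) (F (m + 1) x)).2 + (S m (d m x)).2 + d (m + 1) (S (m + 1) x).2 := by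
      rw [eq_comm, ← sub_eq_zero]
      have h3 : (T (m + 1) (F (m + 1) x)).2 - x + (S m (d m x)).2 + d (m + 1) (S (m + 1) x).2 = 0 := by
        rw [← h1]; abel
      rw [← h3]; abel
    rw [h2.trans (add_right_comm _ _ _)]
    congr 2
    all_goals rw [← h2.trans (add_right_comm _ _ _)]
  refine ⟨(T (m + 2) w).2 + (S (m + 1) x).2, ?_⟩
  have e : x - d (m + 1) ((T (m + 2) w).2 + (S (m + 1) x).2) =
      (T (m + 1) (F (m + 1) x - d' (m + 1) w)).2 + (S m (d m x)).2 := by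
    rw [map_add, hg, map_sub, Prod.snd_sub]
    nth_rewrite 1 [hs]
    abel
  rw [e]
  apply Submodule.add_mem
  · exact augS_map ((LinearMap.snd ℚ _ _) ∘ₗ T (m + 1)) (fun g c => by
      rw [LinearMap.comp_apply, LinearMap.comp_apply, (hT (m + 1)).1, prodRep_apply]
      rfl) hFx
  · exact augS_map ((LinearMap.snd ℚ _ _) ∘ₗ S m) (fun g c => by
      rw [LinearMap.comp_apply, LinearMap.comp_apply, (hS m).1, prodRep_apply]
      rfl) hx

end

end Pool.Agent.T6.H34.TW
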