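import Mathlib

/-!
Right-angled Artin groups.
-/

set_option autoImplicit false

namespace Pool.Agent.T6.H34.TW

open scoped commutatorElement

/-- The relations of the right-angled Artin group. -/
def raagRel {V : Type} (Λ : SimpleGraph V) : Set (FreeGroup V) :=
  {r | ∃ u v, Λ.Adj u v ∧ r = ⁅FreeGroup.of u, FreeGroup.of v⁆}

/-- The right-angled Artin group of the graph `Λ`. -/
abbrev RAAG {V : Type} (Λ : SimpleGraph V) : Type := PresentedGroup (raagRel Λ)

/-- The elements `a` and `b` agree modulo the commutator subgroup. -/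
def AbEq {N : Type} [Group N] (a b : N) : Prop := a * b⁻¹ ∈ commutator N

/-- The generator. -/
def gen {V : Type} (Λ : SimpleGraph V) (v : V) : RAAG Λ := PresentedGroup.of v

/-- The automorphisms `ψ γ` send the generator `x_v` to `x_{γ v}`, modulo the commutator subgroup. -/
def PermAb {Γ V : Type} [Group Γ] [MulAction Γ V] {Λ : SimpleGraph V}
    (ψ : Γ →* MulAut (RAAG Λ)) : Prop :=
  ∀ (γ : Γ) (v : V), AbEq (ψ γ (gen Λ v)) (gen Λ (γ • v))

end Pool.Agent.T6.H34.TW
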