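import Pool.Agent.T6.H34.TW.Det
import Pool.Agent.T6.H34.TW.RDef

/-!
Groups acting on graph products of copies of a commutative group, and on right-angled Artin groups,
which permute the factors modulo the commutator subgroup.
-/

set_option autoImplicit false

namespace Pool.Agent.T6.H34.TW

open Monoid Pool.Agent.Y483 Pool.Agent.Y110.KW Pool.Agent.Y75.MQ Pool.Agent.R793.Mag CategoryTheory
  DirectSum Pool.Agent.Y483.PW Pointwise Pool.Agent.R615.KU

open scoped commutatorElement

variable {E : GrpCat.{0} ⥤ ModuleCat.{0} ℚ}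

section Perm

variable (Γ V K : Type) [Group Γ] [MulAction Γ V] [Group K]

variable {Γ} in
/-- The homomorphism of the free product of copies of `K` which permutes the factors. -/
def pm (γ : Γ) : CoprodI (fun _ : V => K) →* CoprodI (fun _ : V => K) :=
  CoprodI.lift fun v => (CoprodI.of (M := fun _ : V => K) (i := γ • v))

variable {Γ V K} in
theorem pm_of (γ : Γ) (v : V) (x : K) : pm V K γ (CoprodI.of (M := fun _ : V => K) (i := v) x) =
    CoprodI.of (M := fun _ : V => K) (i := γ • v) x := by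
  unfold pm
  rw [CoprodI.lift_of]

theorem pm_mul (γ δ : Γ) (x : CoprodI (fun _ : V => K)) :
    pm V K γ (pm V K δ x) = pm V K (γ * δ) x := by
  have h : (pm V K γ).comp (pm V K δ) = pm V K (γ * δ) := by
    apply CoprodI.ext_hom
    intro v
    ext1 x
    change pm V K γ (pm V K δ (CoprodI.of x)) = pm V K (γ * δ) (CoprodI.of x)
    rw [pm_of, pm_of, pm_of, mul_smul]
  exact DFunLike.congr_fun h x

theorem pm_one (x : CoprodI (fun _ : V => K)) : pm V K (1 : Γ) x = x := by
  have h : pm V K (1 : Γ) = MonoidHom.id _ := by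
    apply CoprodI.ext_hom
    intro v
    ext1 x
    change pm V K (1 : Γ) (CoprodI.of x) = CoprodI.of x
    rw [pm_of, one_smul]
  exact DFunLike.congr_fun h x

/-- The action of `Γ` on the free product of copies of `K` indexed by `V`. -/
def pmAct : Γ →* MulAut (CoprodI (fun _ : V => K)) :=
  MonoidHom.mk' (fun γ => MonoidHom.toMulEquiv (pm V K γ) (pm V K γ⁻¹)
    (MonoidHom.ext fun x => by
      change pm V K γ⁻¹ (pm V K γ x) = x
      rw [pm_mul, inv_mul_cancel, pm_one])
    (MonoidHom.ext fun x => by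
      change pm V K γ (pm V K γ⁻¹ x) = x
      rw [pm_mul, mul_inv_cancel, pm_one]))
    (fun a b => MulEquiv.ext fun x => (pm_mul Γ V K a b x).symm)

theorem pmAct_permutes : Permutes (pmAct Γ V K) := fun γ v x => ⟨x, pm_of γ v x⟩

theorem pmAct_rigid : Rigid (pmAct Γ V K) := by
  intro γ v hv x
  change pm V K γ (CoprodI.of x) = _
  rw [pm_of, hv]

theorem inv_top : Inv Γ (⊤ : SimpleGraph V) := by
  intro γ u v h h'
  exact h (MulAction.injective γ h')

end Perm

/-- A graph product of copies of `K`, and a group which permutes the factors modulo the commutator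
subgroup. -/
theorem det_perm (hE : HasPT E) {Γ V K N : Type} [Group Γ] [MulAction Γ V] [CommGroup K] [Group N]
    {Λ : SimpleGraph V} (hΛ : Inv Γ Λ) {c : V → (K →* N)}
    (hc : IsGP (P := fun _ : V => K) Λ c) (ψ : Γ →* MulAut N)
    (hψ : ∀ γ v x, ψ γ (c v x) * (c (γ • v) x)⁻¹ ∈ commutator N) (hK : Det E K)
    (hΓ : ∀ σ : Finset V, Det E (fixingSubgroup Γ (σ : Set V))) : Det E (N ⋊[ψ] Γ) := by
  have hP := pmAct_permutes Γ V K
  have hI := preserves_graphRel (Λ := (⊤ : SimpleGraph V)) hP (inv_top Γ V)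
  obtain ⟨e, he⟩ := hc
  have hgen : ∀ {H : Type} [Group H] (a b : N →* H), (∀ v x, a (c v x) = b (c v x)) → a = b := by
    intro H _ a b hab
    have h1 : a.comp e.toMonoidHom = b.comp e.toMonoidHom := by
      apply quo_ext
      intro v x
      change a (e (fac (graphRel Λ) v x)) = b (e (fac (graphRel Λ) v x))
      rw [he, hab]
    apply MonoidHom.ext
    intro n
    have h2 := DFunLike.congr_fun h1 (e.symm n)
    change a (e (e.symm n)) = b (e (e.symm n)) at h2
    rwa [e.apply_symm_apply] at h2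
  let f : N →* GP (fun _ : V => K) ⊤ := (canon (le_top : Λ ≤ ⊤)).comp e.symm.toMonoidHom
  have hf : ∀ v x, f (c v x) = fac (graphRel (P := fun _ : V => K) ⊤) v x := by
    intro v x
    change canon (le_top : Λ ≤ ⊤) (e.symm (c v x)) = _
    rw [← he, e.symm_apply_apply, canon_fac]
  have hq : ∀ γ v x, qAct hI γ (fac (graphRel (P := fun _ : V => K) ⊤) v x) =
      fac (graphRel (P := fun _ : V => K) ⊤) (γ • v) x := by
    intro γ v x
    change (QuotientGroup.mk (pm V K γ (CoprodI.of x)) : GP (fun _ : V => K) ⊤) = _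
    rw [pm_of]
    rfl
  have hcomm : commutator N ≤ f.ker := by
    have hc : ∀ a b : GP (fun _ : V => K) (⊤ : SimpleGraph V), Commute a b := gp_top_comm
    rw [commutator_def, Subgroup.commutator_le]
    intro a _ b _
    rw [MonoidHom.mem_ker, map_commutatorElement, commutatorElement_eq_one_iff_commute]
    exact hc _ _
  have hmap : ∀ γ : Γ, f.comp (ψ γ).toMonoidHom = (qAct hI γ).toMonoidHom.comp f := by
    intro γ
    apply hgen
    intro v x
    change f (ψ γ (c v x)) = qAct hI γ (f (c v x))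
    rw [hf, hq, ← hf]
    have h1 := hcomm (hψ γ v x)
    rw [MonoidHom.mem_ker, map_mul, map_inv, mul_inv_eq_one] at h1
    exact h1
  have h1 : Adapted (gpSys ⊤ hP hI) f := by
    refine isGP_adapted (le_top : Λ ≤ ⊤) ⟨e, he⟩
      (c' := fun v => fac (graphRel (P := fun _ : V => K) ⊤) v)
      ⟨MulEquiv.refl _, fun v x => rfl⟩ hf ?_ hΛ
    intro S v x
    change ret (graphRel_local ⊤) S (fac (graphRel (P := fun _ : V => K) ⊤) v x) = _
    by_cases hv : v ∈ S
    · rw [ret_fac_mem _ hv, if_pos hv]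
    · rw [ret_fac_notMem _ hv, if_neg hv]
  have h2 : Extends (gpSys ⊤ hP hI) f (SemidirectProduct.inl : N →* N ⋊[ψ] Γ)
      (SemidirectProduct.map f (MonoidHom.id Γ) hmap) := by
    refine ⟨fun γ => ⟨SemidirectProduct.inr γ, rfl⟩, SemidirectProduct.inl_injective,
      fun g hg => ⟨g.left, SemidirectProduct.ext rfl hg.symm⟩, fun n => ?_⟩
    exact SemidirectProduct.map_inl _ _ _ n
  exact (h2.hInj h1).det (Det.gp ⊤ hP hI (pmAct_rigid Γ V K) hE (fun _ => hK)
    (fun σ _ => hΓ σ))

section RAAG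

variable {V : Type}

/-- The homomorphism from `ℤ` to the right-angled Artin group. -/
noncomputable def rc (Λ : SimpleGraph V) (v : V) : Zn 1 →* RAAG Λ where
  toFun m := (PresentedGroup.of v) ^ (m.toAdd 0)
  map_one' := zpow_zero _
  map_mul' := fun _ _ => zpow_add _ _ _

theorem rc_one (Λ : SimpleGraph V) (v : V) :
    rc Λ v (Multiplicative.ofAdd fun _ => 1) = PresentedGroup.of v := zpow_one _

theorem raag_comm (Λ : SimpleGraph V) {u v : V} (h : Λ.Adj u v) :
    Commute (PresentedGroup.of u : RAAG Λ) (PresentedGroup.of v) := by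
  have h1 : (PresentedGroup.mk (raagRel Λ) ⁅FreeGroup.of u, FreeGroup.of v⁆) = 1 :=
    PresentedGroup.one_of_mem ⟨u, v, h, rfl⟩
  rw [map_commutatorElement, commutatorElement_eq_one_iff_commute] at h1
  exact h1

theorem raag_isGP (Λ : SimpleGraph V) : IsGP (P := fun _ : V => Zn 1) Λ (rc Λ) := by
  let a : GP (fun _ : V => Zn 1) Λ →* RAAG Λ := quoLift (CoprodI.lift (rc Λ)) (by
    rintro _ ⟨u, v, huv, x, y, rfl⟩
    rw [map_mul, map_mul, map_mul, map_inv, map_inv, CoprodI.lift_of, CoprodI.lift_of,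
      mul_inv_eq_one, mul_inv_eq_iff_eq_mul]
    exact ((raag_comm Λ huv).zpow_zpow _ _).eq)
  have ha : ∀ v x, a (fac (graphRel Λ) v x) = rc Λ v x := by
    intro v x
    change CoprodI.lift (rc Λ) (CoprodI.of x) = _
    rw [CoprodI.lift_of]
  let g : V → GP (fun _ : V => Zn 1) Λ := fun v =>
    fac (graphRel (P := fun _ : V => Zn 1) Λ) v (Multiplicative.ofAdd fun _ => 1)
  have hg : ∀ r ∈ raagRel Λ, FreeGroup.lift g r = 1 := by
    rintro _ ⟨u, v, huv, rfl⟩
    rw [map_commutatorElement, commutatorElement_eq_one_iff_commute, FreeGroup.lift_apply_of,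
      FreeGroup.lift_apply_of]
    exact gp_comm Λ huv _ _
  let b : RAAG Λ →* GP (fun _ : V => Zn 1) Λ := PresentedGroup.toGroup hg
  have hb : ∀ v, b (PresentedGroup.of v) = g v := fun v => PresentedGroup.toGroup.of hg
  have hgz : ∀ v (x : Zn 1), g v ^ (x.toAdd 0) = fac (graphRel Λ) v x := by
    intro v x
    change (fac (graphRel (P := fun _ : V => Zn 1) Λ) v (Multiplicative.ofAdd fun _ => 1)) ^ _ = _
    rw [← map_zpow]
    congr 1
    apply Multiplicative.toAdd.injective
    funext i
    have : i = 0 := Subsingleton.elim _ _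
    subst this
    rw [toAdd_zpow]
    change (x.toAdd 0) • (1 : ℤ) = x.toAdd 0
    rw [smul_eq_mul, mul_one]
  refine ⟨MonoidHom.toMulEquiv a b ?_ ?_, fun v x => ha v x⟩
  · apply quo_ext
    intro v x
    change b (a (fac (graphRel Λ) v x)) = fac (graphRel Λ) v x
    rw [ha]
    change b ((PresentedGroup.of v) ^ (x.toAdd 0)) = _
    rw [map_zpow, hb, hgz]
  · apply PresentedGroup.ext
    intro v
    change a (b (PresentedGroup.of v)) = PresentedGroup.of v
    rw [hb, ha, rc_one]

/-- **Right-angled Artin groups**, and a group which permutes the generators modulo the commutator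
subgroup. -/
theorem det_raag (hE : HasPT E) {Γ : Type} [Group Γ] [MulAction Γ V] {Λ : SimpleGraph V}
    (hΛ : ∀ (γ : Γ) (u v : V), Λ.Adj u v → Λ.Adj (γ • u) (γ • v)) (ψ : Γ →* MulAut (RAAG Λ))
    (hψ : PermAb ψ)
    (hΓ : ∀ σ : Finset V, Det E (fixingSubgroup Γ (σ : Set V))) : Det E (RAAG Λ ⋊[ψ] Γ) := by
  refine det_perm hE hΛ (raag_isGP Λ) ψ (fun γ v x => ?_) (Det.zn 1) hΓ
  change ψ γ ((PresentedGroup.of v) ^ (x.toAdd 0)) * ((PresentedGroup.of (γ • v)) ^ (x.toAdd 0))⁻¹ ∈ _
  have h1 : ∀ a b : RAAG Λ, a * b⁻¹ ∈ commutator (RAAG Λ) ↔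
      Abelianization.of a = Abelianization.of b := by
    intro a b
    have h2 : (Abelianization.of : RAAG Λ →* _).ker = commutator (RAAG Λ) :=
      QuotientGroup.ker_mk' _
    rw [← h2, MonoidHom.mem_ker, map_mul, map_inv, mul_inv_eq_one]
  have h2 : Abelianization.of (ψ γ (PresentedGroup.of v)) =
      Abelianization.of (PresentedGroup.of (γ • v) : RAAG Λ) := (h1 _ _).mp (hψ γ v)
  rw [h1, map_zpow, map_zpow, map_zpow, h2]

end RAAG

end Pool.Agent.T6.H34.TW
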