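import Pool.Agent.T6.H34.TW.Cmp

/-!
The lemma of Shapiro for the complex `Bq Γ G`, for a surjective homomorphism `p : G → Γ` with kernel
`N`: the inclusion of the chains of `N` is a quasi-isomorphism.
-/

set_option autoImplicit false

namespace Pool.Agent.T6.H34.TW

open Finsupp Pool.Agent.Y483

variable {G Γ N : Type} [Group G] [Group Γ] [Group N]

/-- The chains of `N` as chains of `G` with coefficients in `ℚ[Γ]`. -/
noncomputable def incK (Γ : Type) [Group Γ] (i : N →* G) (q : ℕ) : T q N ℚ →ₗ[ℚ] Bq Γ G q :=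
  mp q i (lsingle (1 : Γ))

section

variable {p : G →* Γ} {i : N →* G} (h1 : ∀ n, p (i n) = 1)

include h1 in
theorem dd_incK (q : ℕ) (y : T (q + 1) N ℚ) :
    dd (repP p) q (incK Γ i (q + 1) y) = incK Γ i q (dd (trivR N ℚ) q y) :=
  dd_mp (ρ := trivR N ℚ) (τ := repP p) i (lsingle (1 : Γ)) (fun n r => by
    rw [lsingle_apply, lsingle_apply, repP_single, h1, one_mul]
    rfl) q y

include h1 in
theorem cyc_incK (q : ℕ) (y : T q N ℚ) (hy : Cyc (trivR N ℚ) q y) :
    Cyc (repP p) q (incK Γ i q y) := by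
  cases q with
  | zero => exact Cyc.zero _ _
  | succ q =>
    rw [cyc_succ] at *
    rw [dd_incK h1, hy, map_zero]

variable (hs : Function.Surjective p) (hi : Function.Injective i)
  (hex : ∀ g, p g = 1 → ∃ n, i n = g)

include h1 hs hi hex in
theorem shap_surj (q : ℕ) (b : Bq Γ G q) (hb : Cyc (repP p) q b) :
    ∃ y : T q N ℚ, Cyc (trivR N ℚ) q y ∧ b - incK Γ i q y ∈ LinearMap.range (dd (repP p) q) :=
  shapiro ((MulAction.toPermHom Γ Γ).comp p) 1 (fun γ => by
      obtain ⟨g, hg⟩ := hs γ
      refine ⟨g, ?_⟩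
      change p g * 1 = γ
      rw [mul_one, hg]) i hi (fun n => by
      change p (i n) * 1 = 1
      rw [mul_one, h1]) (fun g hg => by
      apply hex
      have h2 : p g * 1 = 1 := hg
      rwa [mul_one] at h2) (trivR N ℚ) (fun _ => rfl) q b hb

include h1 hs hi hex in
theorem shap_inj (q : ℕ) (y : T q N ℚ)
    (hy : incK Γ i q y ∈ LinearMap.range (dd (repP p) q)) :
    y ∈ LinearMap.range (dd (trivR N ℚ) q) := by
  classical
  choose t₀ ht₀ using hs
  let t : Γ → G := fun γ => t₀ γ * (t₀ 1)⁻¹
  have ht : ∀ γ, p (t γ) = γ := by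
    intro γ
    simp only [t, map_mul, map_inv, ht₀, inv_one, mul_one]
  have ht1 : t 1 = 1 := mul_inv_cancel _
  let F : Γ → G → G := fun v h => h * t ((p h)⁻¹ * v)
  have hF : ∀ v h, p (F v h) = v := by
    intro v h
    simp only [F, map_mul, ht, mul_inv_cancel_left]
  have hFeq : ∀ g v h, F (p g * v) (g * h) = g * F v h := by
    intro g v h
    simp only [F, map_mul, mul_inv_rev, mul_assoc, inv_mul_cancel_left]
  let κ : G → N := fun h => if hh : p h = 1 then (hex h hh).choose else 1
  have hκ : ∀ h, p h = 1 → i (κ h) = h := by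
    intro h hh
    simp only [κ, dif_pos hh]
    exact (hex h hh).choose_spec
  have hκi : ∀ n, κ (i n) = n := fun n => hi (hκ _ (h1 n))
  let Y : ∀ q, T q G (Γ →₀ ℚ) →ₗ[ℚ] T q N ℚ := fun q => lsum ℚ fun w => lsum ℚ fun a =>
    lsingle (fun j : Fin q => κ ((F a (Fin.partialProd w j.castSucc))⁻¹ *
      F a (Fin.partialProd w j.succ)))
  have hY : ∀ (q : ℕ) (w : Fin q → G) (a : Γ) (r : ℚ), Y q (single w (single a r)) =
      single (fun j : Fin q => κ ((F a (Fin.partialProd w j.castSucc))⁻¹ *
        F a (Fin.partialProd w j.succ))) r := by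
    intro q w a r
    simp only [Y]
    rw [Finsupp.lsum_single, Finsupp.lsum_single]
    rfl
  let U : ∀ q, T (q + 1) G (Γ →₀ ℚ) →ₗ[ℚ] T q G (Γ →₀ ℚ) := fun q =>
    (pp (repP p) q) ∘ₗ (comb (q + 1) (fun a => mp (q + 1) (fun h : G => F a h) (lsingle a)))
  have hU : ∀ (q : ℕ) (z : T q G (Γ →₀ ℚ)), U q (sg q z) = incK Γ i q (Y q z) := by
    intro q z
    have h2 : (U q) ∘ₗ (sg q) = (incK Γ i q) ∘ₗ (Y q) := by
      apply TI_ext
      intro w a r
      change (pp (repP p) q) (comb (q + 1) (fun a => mp (q + 1) (fun h : G => F a h) (lsingle a))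
        (sg q (single w (single a r)))) = incK Γ i q (Y q (single w (single a r)))
      rw [hY, incK, mp_single, sg_single, comb_single, mp_single, pp_single, lsingle_apply,
        lsingle_apply, repP_single, map_inv]
      have e4 : (p (((fun h : G => F a h) ∘ Fin.partialProd w) 0))⁻¹ * a = 1 := by
        rw [Function.comp_apply, hF, inv_mul_cancel]
      rw [e4]
      congr 1
      funext j
      simp only [Function.comp_apply]
      rw [hκ]
      rw [map_mul, map_inv, hF, hF, inv_mul_cancel]
    exact DFunLike.congr_fun h2 z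
  have hUinv : ∀ (q : ℕ) (g : G) (z : T (q + 1) G (Γ →₀ ℚ)),
      U q (tr (repP p) (q + 1) g z) = U q z := by
    intro q g z
    have h2 : (U q) ∘ₗ (tr (repP p) (q + 1) g) = U q := by
      apply TI_ext
      intro x a r
      simp only [U]
      rw [LinearMap.comp_apply, LinearMap.comp_apply, LinearMap.comp_apply, tr, mp_single,
        repP_single, comb_single, comb_single, mp_single, mp_single]
      rw [← pp_tr (repP p) q g (single ((fun h => F a h) ∘ x) (lsingle a r)), tr, mp_single,
        lsingle_apply, lsingle_apply, repP_single]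
      congr 2
      funext k
      exact hFeq g a (x k)
    exact DFunLike.congr_fun h2 z
  have hUd : ∀ (q : ℕ) (z : T (q + 1) G (Γ →₀ ℚ)),
      dd (repP p) q (U (q + 1) (sg (q + 1) z)) = U q (sg q (dd (repP p) q z)) := by
    intro q z
    have e1 : dd (repP p) q (U (q + 1) (sg (q + 1) z)) = U q (bd (q + 1) (sg (q + 1) z)) := by
      simp only [U]
      rw [LinearMap.comp_apply, LinearMap.comp_apply, ← pp_bd, comb_bd]
      congr 1
      have e2 : (bd (q + 1)) ∘ₗ (comb (q + 2) (fun a => mp (M := ℚ) (q + 2) (fun h : G => F a h)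
          (lsingle a : ℚ →ₗ[ℚ] (Γ →₀ ℚ)))) = comb (q + 1 + 1)
            (fun a => (mp (q + 1) (fun h : G => F a h) (lsingle a)) ∘ₗ (bd (q + 1))) := by
        apply TI_ext
        intro x a r
        rw [LinearMap.comp_apply, comb_single, comb_single, LinearMap.comp_apply, bd_mp]
      exact DFunLike.congr_fun e2 _
    rw [e1, factor (repP p) q (U q) (hUinv q), pp_bd, pp_sg]
  have hYd : ∀ (q : ℕ) (z : T (q + 1) G (Γ →₀ ℚ)),
      Y q (dd (repP p) q z) = dd (trivR N ℚ) q (Y (q + 1) z) := by
    intro q z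
    have hinj : Function.Injective (incK Γ i q) :=
      mp_injective q hi (Finsupp.single_injective _)
    apply hinj
    rw [← hU, ← hUd, hU, dd_incK h1]
  have hYi : ∀ (q : ℕ) (y : T q N ℚ), Y q (incK Γ i q y) = y := by
    intro q y
    have h2 : (Y q) ∘ₗ (incK Γ i q) = LinearMap.id := by
      apply T_ext
      intro k r
      rw [LinearMap.comp_apply, incK, mp_single, lsingle_apply, hY, LinearMap.id_apply]
      congr 1
      funext j
      have hp : ∀ l : Fin (q + 1), Fin.partialProd (i ∘ k) l = i (Fin.partialProd k l) := by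
        intro l
        induction l using Fin.induction with
        | zero => rw [Fin.partialProd_zero, Fin.partialProd_zero, map_one]
        | succ l ih => rw [Fin.partialProd_succ, Fin.partialProd_succ, ih, map_mul]; rfl
      have hFi : ∀ n, F 1 (i n) = i n := by
        intro n
        simp only [F, h1, inv_one, ht1, mul_one]
      rw [hp, hp, hFi, hFi, ← map_inv, ← map_mul, hκi]
      exact Fin.partialProd_right_inv k j
    exact DFunLike.congr_fun h2 y
  obtain ⟨w, hw⟩ := hy
  refine ⟨Y (q + 1) w, ?_⟩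
  rw [← hYd, hw, hYi]

end

end Pool.Agent.T6.H34.TW
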