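import Pool.Agent.T6.H34.TW.Shp
import Pool.Agent.T6.H34.TW.Tw

/-!
A homomorphism `π : G → G'` of extensions of `Γ` by `N` and `N'`, such that the rational homology of
`N` vanishes above `n` and `H_q(N; ℚ) → H_q(N'; ℚ)` is bijective for `q ≤ n`.
-/

set_option autoImplicit false

namespace Pool.Agent.T6.H34.TW

open Finsupp Pool.Agent.Y483

section

variable {G G' Γ N N' : Type} [Group G] [Group G'] [Group Γ] [Group N] [Group N']

open Classical in
/-- The subcomplex of the chains above `n` and of the boundaries in degree `n`. -/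
noncomputable def tru (p : G' →* Γ) (n q : ℕ) : Submodule ℚ (Bq Γ G' q) :=
  if q < n then ⊥ else if q = n then LinearMap.range (dd (repP p) q) else ⊤

theorem tru_lt (p : G' →* Γ) {n q : ℕ} (h : q < n) : tru p n q = ⊥ := by
  unfold tru
  rw [if_pos h]

theorem tru_eq (p : G' →* Γ) (n : ℕ) : tru p n n = LinearMap.range (dd (repP p) n) := by
  unfold tru
  rw [if_neg (lt_irrefl n), if_pos rfl]

theorem tru_gt (p : G' →* Γ) {n q : ℕ} (h : n < q) : tru p n q = ⊤ := by
  unfold tru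
  rw [if_neg (by omega), if_neg (by omega)]

theorem tru_le (p : G' →* Γ) {n q : ℕ} (h : q ≤ n) :
    tru p n q ≤ LinearMap.range (dd (repP p) q) := by
  rcases Nat.lt_or_eq_of_le h with h | rfl
  · rw [tru_lt p h]
    exact bot_le
  · rw [tru_eq]

theorem dd_tru (p : G' →* Γ) (n q : ℕ) {z : Bq Γ G' (q + 1)} (hz : z ∈ tru p n (q + 1)) :
    dd (repP p) q z ∈ tru p n q := by
  rcases lt_trichotomy q n with h | rfl | h
  · have h1 := tru_le p (n := n) (q := q + 1) h hz
    obtain ⟨w, rfl⟩ := h1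
    rw [dd_dd]
    exact Submodule.zero_mem _
  · rw [tru_eq]
    exact ⟨z, rfl⟩
  · rw [tru_gt p h]
    trivial

theorem rB_tru (p : G' →* Γ) (n q : ℕ) (γ : Γ) {z : Bq Γ G' q} (hz : z ∈ tru p n q) :
    rB Γ G' q γ z ∈ tru p n q := by
  rcases lt_trichotomy q n with h | rfl | h
  · rw [tru_lt p h, Submodule.mem_bot] at *
    rw [hz, map_zero]
  · rw [tru_eq] at *
    obtain ⟨w, rfl⟩ := hz
    exact ⟨rB Γ G' (q + 1) γ w, dd_rB' p q γ w⟩
  · rw [tru_gt p h]
    trivial

/-- The differential of the truncation. -/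
noncomputable def dzT (p : G' →* Γ) (n q : ℕ) :
    (Bq Γ G' (q + 1) ⧸ tru p n (q + 1)) →ₗ[ℚ] (Bq Γ G' q ⧸ tru p n q) :=
  (tru p n (q + 1)).mapQ (tru p n q) (dd (repP p) q) (fun _ hz => dd_tru p n q hz)

theorem dzT_mk (p : G' →* Γ) (n q : ℕ) (z : Bq Γ G' (q + 1)) :
    dzT p n q ((tru p n (q + 1)).mkQ z) = (tru p n q).mkQ (dd (repP p) q z) := rfl

/-- The action on the truncation. -/
noncomputable def zetaT (p : G' →* Γ) (n q : ℕ) : Representation ℚ Γ (Bq Γ G' q ⧸ tru p n q) where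
  toFun γ := (tru p n q).mapQ (tru p n q) (rB Γ G' q γ) (fun _ hz => rB_tru p n q γ hz)
  map_one' := by
    apply LinearMap.ext
    intro z
    obtain ⟨z, rfl⟩ := Submodule.mkQ_surjective _ z
    rw [Submodule.mkQ_apply, Submodule.mapQ_apply, map_one]
    rfl
  map_mul' γ δ := by
    apply LinearMap.ext
    intro z
    obtain ⟨z, rfl⟩ := Submodule.mkQ_surjective _ z
    rw [Module.End.mul_apply, Submodule.mkQ_apply, Submodule.mapQ_apply, Submodule.mapQ_apply,
      Submodule.mapQ_apply, map_mul]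
    rfl

theorem zetaT_mk (p : G' →* Γ) (n q : ℕ) (γ : Γ) (z : Bq Γ G' q) :
    zetaT p n q γ ((tru p n q).mkQ z) = (tru p n q).mkQ (rB Γ G' q γ z) := rfl

theorem FF_incK (π : G →* G') (i : N →* G) (i' : N' →* G') (f : N →* N')
    (hf : ∀ m, π (i m) = i' (f m)) (q : ℕ) (y : T q N ℚ) :
    FF Γ π q (incK Γ i q y) = incK Γ i' q (mp q f LinearMap.id y) := by
  unfold FF incK
  rw [mp_mp, mp_mp]
  congr 2
  funext m
  exact hf m

theorem trn_data (n : ℕ) (p : G →* Γ) (p' : G' →* Γ) (π : G →* G') (hπ : ∀ g, p' (π g) = p g)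
    (i : N →* G) (i' : N' →* G') (f : N →* N') (hf : ∀ m, π (i m) = i' (f m))
    (hi : Function.Injective i) (h1 : ∀ n, p (i n) = 1) (hex : ∀ g, p g = 1 → ∃ n, i n = g)
    (hs : Function.Surjective p)
    (hi' : Function.Injective i') (h1' : ∀ n, p' (i' n) = 1)
    (hex' : ∀ g, p' g = 1 → ∃ n, i' n = g)
    (hv : ∀ (q : ℕ), n < q → ∀ x : HQ q N, x = 0)
    (hinj : ∀ (q : ℕ), q ≤ n → ∀ x : HQ q N, hqMap f q x = 0 → x = 0)
    (hsur : ∀ (q : ℕ), q ≤ n → ∀ x : HQ q N', ∃ y : HQ q N, hqMap f q y = x) :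
    LiftData (Bq Γ G) (Bq Γ G') (fun q => Bq Γ G' q ⧸ tru p' n q) (rB Γ G)
      (rB Γ G') (zetaT p' n) (fun q => dd (repP p) q)
      (fun q => dd (repP p') q) (dzT p' n) (FF Γ π)
      (fun q => (tru p' n q).mkQ) := by
  have hs' : Function.Surjective p' := fun γ => by
    obtain ⟨g, hg⟩ := hs γ
    exact ⟨π g, by rw [hπ, hg]⟩
  refine
    { hdd := fun q b => dd_dd _ q b
      hdd' := fun q b => dd_dd _ q b
      hddz := ?_
      hF := fun q b => dd_FF _ _ _ hπ q b
      hh := fun q b => rfl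
      hd := fun q g b => dd_rB' _ q g b
      hd' := fun q g b => dd_rB' _ q g b
      hdz := ?_
      hFe := fun q g b => FF_rB _ q g b
      hhe := fun q g b => rfl
      hav := fun q => avg_rB q
      hav' := fun q => avg_rB q
      surj := ?_
      inj := ?_ }
  · intro q b
    obtain ⟨z, rfl⟩ := Submodule.mkQ_surjective _ b
    rw [dzT_mk, dzT_mk, dd_dd, map_zero]
  · intro q g b
    obtain ⟨z, rfl⟩ := Submodule.mkQ_surjective _ b
    rw [zetaT_mk, dzT_mk, dzT_mk, zetaT_mk, dd_rB']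
  · intro q z hz
    obtain ⟨z, rfl⟩ := Submodule.mkQ_surjective _ z
    rcases le_or_gt q n with hq | hq
    · have hzc : Cyc (repP p') q z := by
        cases q with
        | zero => exact Cyc.zero _ _
        | succ q =>
          rw [cyc_succ]
          have h2 : dzT p' n q ((tru p' n (q + 1)).mkQ z) = 0 := hz
          rw [dzT_mk, Submodule.mkQ_apply, Submodule.Quotient.mk_eq_zero,
            tru_lt p' (by omega)] at h2
          exact h2
      obtain ⟨y', hy', v, hv'⟩ := shap_surj h1' hs' hi' hex' q z hzc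
      obtain ⟨x', hx'⟩ := exists_class (A := Rep.trivial ℚ N' ℚ) q y' hy'
      obtain ⟨x, hx⟩ := hsur q hq x'
      obtain ⟨y, hy⟩ := exists_rpr _ q x
      have h3 := hy.hq f
      rw [hx] at h3
      have h4 := hx'.sub h3
      rw [sub_self] at h4
      obtain ⟨u, hu⟩ := h4.eq_zero_iff.mp rfl
      have hu' : dd (trivR N' ℚ) q u = y' - mp q f LinearMap.id y := hu
      refine ⟨incK Γ i q y, ?_, (tru p' n (q + 1)).mkQ (v + incK Γ i' (q + 1) u), ?_⟩
      · exact (Twist.cycB_iff p q _).mpr (cyc_incK h1 q y hy.cyc)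
      · rw [dzT_mk, map_add, dd_incK h1', hu', hv', FF_incK π i i' f hf, ← map_sub, map_sub]
        congr 1
        abel
    · refine ⟨0, (Twist.cycB_iff p q _).mpr ?_, ?_⟩
      · cases q with
        | zero => exact Cyc.zero _ _
        | succ q => rw [cyc_succ, map_zero]
      · have h2 : (tru p' n q).mkQ z = 0 := by
          rw [Submodule.mkQ_apply, Submodule.Quotient.mk_eq_zero, tru_gt p' hq]
          trivial
        rw [h2, map_zero, map_zero, sub_zero]
        exact Submodule.zero_mem _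
  · intro q b hb hr
    have hb' := (Twist.cycB_iff p q _).mp hb
    obtain ⟨y, hyc, v, hv'⟩ := shap_surj h1 hs hi hex q b hb'
    have hbe : b = incK Γ i q y + dd (repP p) q v := by
      rw [hv']; abel
    obtain ⟨x, hx⟩ := exists_class (A := Rep.trivial ℚ N ℚ) q y hyc
    have hx0 : x = 0 := by
      rcases le_or_gt q n with hq | hq
      · obtain ⟨w, hw⟩ := hr
        obtain ⟨w, rfl⟩ := Submodule.mkQ_surjective _ w
        rw [dzT_mk, Submodule.mkQ_apply, Submodule.mkQ_apply, Submodule.Quotient.eq] at hw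
        obtain ⟨w₂, hw₂⟩ := tru_le p' hq hw
        have h5 : incK Γ i' q (mp q f LinearMap.id y) ∈ LinearMap.range (dd (repP p') q) := by
          refine ⟨w - w₂ - FF Γ π (q + 1) v, ?_⟩
          rw [map_sub, map_sub, hw₂, hbe, map_add, FF_incK π i i' f hf, dd_FF p p' π hπ]
          abel
        have h6 := shap_inj h1' hs' hi' hex' q _ h5
        apply hinj q hq
        exact (hx.hq f).eq_zero_iff.mpr h6
      · exact hv q hq x
    rw [hx0] at hx
    obtain ⟨u, hu⟩ := hx.eq_zero_iff.mp rfl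
    refine ⟨v + incK Γ i (q + 1) u, ?_⟩
    have h4 : dd (repP p) q (incK Γ i (q + 1) u) = incK Γ i q y := by
      rw [dd_incK h1]
      congr 1
    rw [map_add, h4, hbe, add_comm]

/-- **Truncation.** -/
theorem trn_inj (n : ℕ) (p : G →* Γ) (p' : G' →* Γ) (π : G →* G') (hπ : ∀ g, p' (π g) = p g)
    (i : N →* G) (i' : N' →* G') (f : N →* N') (hf : ∀ m, π (i m) = i' (f m))
    (hi : Function.Injective i) (h1 : ∀ n, p (i n) = 1) (hex : ∀ g, p g = 1 → ∃ n, i n = g)
    (hs : Function.Surjective p)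
    (hi' : Function.Injective i') (h1' : ∀ n, p' (i' n) = 1)
    (hex' : ∀ g, p' g = 1 → ∃ n, i' n = g)
    (hv : ∀ (q : ℕ), n < q → ∀ x : HQ q N, x = 0)
    (hinj : ∀ (q : ℕ), q ≤ n → ∀ x : HQ q N, hqMap f q x = 0 → x = 0)
    (hsur : ∀ (q : ℕ), q ≤ n → ∀ x : HQ q N', ∃ y : HQ q N, hqMap f q y = x) (j : ℕ)
    (x : HQ j G) (hx : hqMap π j x = 0) : x = 0 := by
  cases j with
  | zero => exact inj_zero _ x hx
  | succ m =>
    exact inj_of_lift _ _ _
      (trn_data n p p' π hπ i i' f hf hi h1 hex hs hi' h1' hex' hv hinj hsur) m x hx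

end

end Pool.Agent.T6.H34.TW
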